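import Pool.Agent.Helper21.LL_A1A3

/-!
# Tasks A6 (slab) and G (Harriman orbitals) for MP_2a55aa_mp
-/

open MeasureTheory Filter Topology
open scoped ENNReal

noncomputable section

namespace Pool.Agent.Helper3.LL

open Pool.Agent.Helper1.LL

variable {d : ℕ}

theorem abs_integral_mul_le {m a b : Sp d → ℝ} {K : ℝ} (hm : ∀ x, |m x| ≤ K)
    (ha : MemLp a 2 volume) (hb : MemLp b 2 volume) :
    ENNReal.ofReal |∫ x, m x * (a x * b x)| ≤
      ENNReal.ofReal K * (eLpNorm a 2 volume * eLpNorm b 2 volume) := by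
  have h1 : ENNReal.ofReal |∫ x, m x * (a x * b x)| = ‖∫ x, m x * (a x * b x)‖ₑ := by
    rw [← Real.norm_eq_abs, ofReal_norm]
  rw [h1]
  refine (enorm_integral_le_lintegral_enorm _).trans ?_
  have h2 := eLpNorm_smul_le_mul_eLpNorm (p := 2) (q := 2) (r := 1)
    (μ := (volume : Measure (Sp d))) hb.1 ha.1
  rw [eLpNorm_one_eq_lintegral_enorm] at h2
  calc ∫⁻ x, ‖m x * (a x * b x)‖ₑ ≤ ∫⁻ x, ENNReal.ofReal K * ‖(a • b) x‖ₑ := by
        refine lintegral_mono fun x => ?_
        rw [Pi.smul_apply', smul_eq_mul, enorm_mul]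
        gcongr
        rw [← ofReal_norm, Real.norm_eq_abs]
        exact ENNReal.ofReal_le_ofReal (hm x)
    _ = ENNReal.ofReal K * ∫⁻ x, ‖(a • b) x‖ₑ := lintegral_const_mul' _ _ ENNReal.ofReal_ne_top
    _ ≤ _ := by gcongr

theorem integrable_mul3 {m a b : Sp d → ℝ} {K : ℝ} (hmm : AEStronglyMeasurable m volume)
    (hm : ∀ x, |m x| ≤ K) (ha : MemLp a 2 volume) (hb : MemLp b 2 volume) :
    Integrable (fun x => m x * (a x * b x)) volume := by
  have h := ha.integrable_mul hb
  exact h.bdd_mul hmm (Eventually.of_forall hm)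

/-- continuity of the pairing `(a, b) ↦ ∫ m a b` on `L²` -/
theorem tendsto_bilin {m : Sp d → ℝ} {K : ℝ} (hmm : AEStronglyMeasurable m volume)
    (hm : ∀ x, |m x| ≤ K) {f g : Sp d → ℝ} {fn gn : ℕ → Sp d → ℝ} (hf : MemLp f 2 volume)
    (hg : MemLp g 2 volume) (hfn : ∀ n, MemLp (fn n) 2 volume) (hgn : ∀ n, MemLp (gn n) 2 volume)
    (h1 : Tendsto (fun n => eLpNorm (fun x => fn n x - f x) 2 volume) atTop (𝓝 0))
    (h2 : Tendsto (fun n => eLpNorm (fun x => gn n x - g x) 2 volume) atTop (𝓝 0)) :
    Tendsto (fun n => ∫ x, m x * (fn n x * gn n x)) atTop (𝓝 (∫ x, m x * (f x * g x))) := by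
  rw [tendsto_iff_norm_sub_tendsto_zero]
  have hdf : ∀ n, MemLp (fun x => fn n x - f x) 2 volume := fun n => (hfn n).sub hf
  have hdg : ∀ n, MemLp (fun x => gn n x - g x) 2 volume := fun n => (hgn n).sub hg
  have hb : ∀ n, ENNReal.ofReal ‖(∫ x, m x * (fn n x * gn n x)) - ∫ x, m x * (f x * g x)‖ ≤
      ENNReal.ofReal K * (eLpNorm (fun x => fn n x - f x) 2 volume
        * (eLpNorm (fun x => gn n x - g x) 2 volume + eLpNorm g 2 volume))
      + ENNReal.ofReal K * (eLpNorm f 2 volume * eLpNorm (fun x => gn n x - g x) 2 volume) := by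
    intro n
    have e1 : (∫ x, m x * (fn n x * gn n x)) - ∫ x, m x * (f x * g x)
        = (∫ x, m x * ((fn n x - f x) * gn n x)) + ∫ x, m x * (f x * (gn n x - g x)) := by
      rw [← integral_sub (integrable_mul3 hmm hm (hfn n) (hgn n)) (integrable_mul3 hmm hm hf hg),
        ← integral_add (integrable_mul3 hmm hm (hdf n) (hgn n)) (integrable_mul3 hmm hm hf (hdg n))]
      refine integral_congr_ae (Eventually.of_forall fun x => ?_)
      simp only
      ring
    rw [e1]
    refine (ENNReal.ofReal_le_ofReal (norm_add_le _ _)).trans ?_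
    rw [ENNReal.ofReal_add (norm_nonneg _) (norm_nonneg _)]
    refine add_le_add ?_ ?_
    · refine (abs_integral_mul_le hm (hdf n) (hgn n)).trans ?_
      gcongr
      have e2 : gn n = (fun x => gn n x - g x) + g := by funext x; simp
      conv_lhs => rw [e2]
      exact eLpNorm_add_le (hdg n).1 hg.1 (by norm_num)
    · exact abs_integral_mul_le hm hf (hdg n)
  have hlim : Tendsto (fun n => ENNReal.ofReal K * (eLpNorm (fun x => fn n x - f x) 2 volume
        * (eLpNorm (fun x => gn n x - g x) 2 volume + eLpNorm g 2 volume))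
      + ENNReal.ofReal K * (eLpNorm f 2 volume * eLpNorm (fun x => gn n x - g x) 2 volume))
      atTop (𝓝 0) := by
    have t1 := h2.add (tendsto_const_nhds (x := eLpNorm g 2 volume))
    rw [zero_add] at t1
    have t2 := ENNReal.Tendsto.mul h1 (Or.inr hg.eLpNorm_lt_top.ne) t1 (Or.inr ENNReal.zero_ne_top)
    rw [zero_mul] at t2
    have t3 := ENNReal.Tendsto.const_mul (a := ENNReal.ofReal K) t2 (Or.inr ENNReal.ofReal_ne_top)
    have t4 := ENNReal.Tendsto.const_mul (a := eLpNorm f 2 volume) h2
      (Or.inr hf.eLpNorm_lt_top.ne)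
    have t5 := ENNReal.Tendsto.const_mul (a := ENNReal.ofReal K) t4 (Or.inr ENNReal.ofReal_ne_top)
    have t6 := t3.add t5
    simpa using t6
  have h3 := tendsto_of_tendsto_of_tendsto_of_le_of_le tendsto_const_nhds hlim
    (fun n => zero_le) hb
  have h4 := (ENNReal.tendsto_toReal ENNReal.zero_ne_top).comp h3
  rw [ENNReal.toReal_zero] at h4
  refine h4.congr fun n => ?_
  simp only [Function.comp_apply]
  rw [ENNReal.toReal_ofReal (norm_nonneg _)]

theorem hasFDerivAt_coord (a : Fin d) (x : Sp d) :
    HasFDerivAt (fun x : Sp d => x a) (EuclideanSpace.proj a : Sp d →L[ℝ] ℝ) x :=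
  (EuclideanSpace.proj a : Sp d →L[ℝ] ℝ).hasFDerivAt

/-- integration by parts against a `C¹` function of one coordinate -/
theorem ibp_ramp {u : Sp d → ℝ} {G : Fin d → Sp d → ℝ} (h : IsH1 u G) (a : Fin d)
    (ψ p : ℝ → ℝ) (hp : Continuous p) (hψ : ∀ t, HasDerivAt ψ (p t) t) {K : ℝ}
    (hK : ∀ t, |ψ t| ≤ K) (hKp : ∀ t, |p t| ≤ K) :
    ∫ x, p (x a) * (u x * u x) = - ∫ x, (2 * ψ (x a)) * (u x * G a x) := by
  obtain ⟨v, hv1, hv2, hv3, hv4⟩ := Pool.Agent.Helper21.LL.IsH1.approx h
  have hψc : Continuous ψ := continuous_iff_continuousAt.2 fun t => (hψ t).continuousAt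
  have hvm : ∀ n, MemLp (v n) 2 volume := fun n => (hv1 n).continuous.memLp_of_hasCompactSupport (hv2 n)
  have hdc : ∀ n, Continuous fun x => fderiv ℝ (v n) x (eb a) := fun n =>
    ((hv1 n).continuous_fderiv (by simp)).clm_apply continuous_const
  have hds : ∀ n, HasCompactSupport fun x => fderiv ℝ (v n) x (eb a) := fun n =>
    (hv2 n).fderiv_apply ℝ (eb a)
  have hdm : ∀ n, MemLp (fun x => fderiv ℝ (v n) x (eb a)) 2 volume := fun n =>
    (hdc n).memLp_of_hasCompactSupport (hds n)
  have hca : Continuous fun x : Sp d => x a := by fun_prop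
  have hn : ∀ n, ∫ x, p (x a) * (v n x * v n x)
      = - ∫ x, (2 * ψ (x a)) * (v n x * fderiv ℝ (v n) x (eb a)) := by
    intro n
    have hdiff : Differentiable ℝ (v n) := (hv1 n).differentiable (by simp)
    have hψf : ∀ x : Sp d, HasFDerivAt (fun x : Sp d => ψ (x a))
        (p (x a) • (EuclideanSpace.proj a : Sp d →L[ℝ] ℝ)) x := fun x =>
      (hψ (x a)).comp_hasFDerivAt x (hasFDerivAt_coord a x)
    have hsq : ∀ x : Sp d, HasFDerivAt (fun x : Sp d => v n x * v n x)
        (v n x • fderiv ℝ (v n) x + v n x • fderiv ℝ (v n) x) x := fun x =>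
      (hdiff x).hasFDerivAt.mul (hdiff x).hasFDerivAt
    have e1 : ∀ x : Sp d, fderiv ℝ (fun x : Sp d => ψ (x a)) x (eb a) = p (x a) := by
      intro x
      rw [(hψf x).fderiv]
      simp [eb]
    have e2 : ∀ x : Sp d, fderiv ℝ (fun x : Sp d => v n x * v n x) x (eb a)
        = 2 * (v n x * fderiv ℝ (v n) x (eb a)) := by
      intro x
      rw [(hsq x).fderiv]
      simp only [add_apply, smul_apply, smul_eq_mul]
      ring
    have i1 : Integrable (fun x => p (x a) * (v n x * v n x)) volume :=
      (((hp.comp hca).mul ((hv1 n).continuous.mul (hv1 n).continuous))).integrable_of_hasCompactSupport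
        ((hv2 n).mul_left.mul_left)
    have i2 : Integrable (fun x => ψ (x a) * (2 * (v n x * fderiv ℝ (v n) x (eb a)))) volume :=
      ((hψc.comp hca).mul (continuous_const.mul ((hv1 n).continuous.mul
        (hdc n)))).integrable_of_hasCompactSupport ((hv2 n).mul_right.mul_left.mul_left)
    have i3 : Integrable (fun x => ψ (x a) * (v n x * v n x)) volume :=
      (((hψc.comp hca).mul ((hv1 n).continuous.mul (hv1 n).continuous))).integrable_of_hasCompactSupport
        ((hv2 n).mul_left.mul_left)
    have := integral_mul_fderiv_eq_neg_fderiv_mul_of_integrable (μ := (volume : Measure (Sp d)))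
      (f := fun x : Sp d => ψ (x a)) (g := fun x : Sp d => v n x * v n x) (v := eb a)
      (by simpa only [e1] using i1) (by simpa only [e2] using i2) i3
      (fun x _ => (hψf x).differentiableAt) (fun x _ => (hsq x).differentiableAt)
    simp only [e1, e2] at this
    rw [← neg_eq_iff_eq_neg.2 this]
    congr 1
    refine integral_congr_ae (Eventually.of_forall fun x => ?_)
    simp only
    ring
  have t1 := tendsto_bilin (m := fun x : Sp d => p (x a)) (hp.comp hca).aestronglyMeasurable
    (fun x => hKp _) h.memLp h.memLp hvm hvm hv3 hv3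
  have t2 := tendsto_bilin (m := fun x : Sp d => 2 * ψ (x a)) (K := 2 * K)
    (continuous_const.mul (hψc.comp hca)).aestronglyMeasurable
    (fun x => by rw [abs_mul, abs_two]; gcongr; exact hK _) h.memLp (h.memLp_grad a) hvm hdm hv3
      (hv4 a)
  refine tendsto_nhds_unique t1 ?_
  simp only [hn]
  exact t2.neg

/-! ### Slabs -/

/-- continuous approximation of the indicator of `(s, t]` -/
def pk (s t : ℝ) (k : ℕ) (τ : ℝ) : ℝ := max 0 (min 1 (min (k * (τ - s)) (1 - k * (τ - t))))

theorem pk_continuous (s t : ℝ) (k : ℕ) : Continuous (pk s t k) := by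
  unfold pk; fun_prop

theorem pk_nonneg (s t : ℝ) (k : ℕ) (τ : ℝ) : 0 ≤ pk s t k τ := le_max_left _ _

theorem pk_le_one (s t : ℝ) (k : ℕ) (τ : ℝ) : pk s t k τ ≤ 1 :=
  max_le zero_le_one (min_le_left _ _)

theorem pk_le_indicator (s t : ℝ) {k : ℕ} (hk : 1 ≤ k) (τ : ℝ) :
    pk s t k τ ≤ (Set.Icc s (t + 1)).indicator (fun _ => (1 : ℝ)) τ := by
  have hk' : (1 : ℝ) ≤ k := by exact_mod_cast hk
  by_cases h : τ ∈ Set.Icc s (t + 1)
  · rw [Set.indicator_of_mem h]; exact pk_le_one _ _ _ _
  · rw [Set.indicator_of_notMem h]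
    refine max_le le_rfl ?_
    rw [Set.mem_Icc, not_and_or, not_le, not_le] at h
    rcases h with h | h
    · exact (min_le_right _ _).trans ((min_le_left _ _).trans (by nlinarith))
    · exact (min_le_right _ _).trans ((min_le_right _ _).trans (by nlinarith))

theorem pk_tendsto {s t : ℝ} (hst : s < t) (τ : ℝ) :
    Tendsto (fun k => pk s t k τ) atTop (𝓝 ((Set.Ioc s t).indicator (fun _ => (1 : ℝ)) τ)) := by
  refine tendsto_const_nhds.congr' ?_
  rcases le_or_gt τ s with h1 | h1
  · refine Eventually.of_forall fun k => ?_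
    rw [Set.indicator_of_notMem (by simp [h1])]
    refine (max_eq_left ?_).symm
    refine (min_le_right _ _).trans ((min_le_left _ _).trans ?_)
    have : (0 : ℝ) ≤ k := Nat.cast_nonneg k
    nlinarith
  rcases le_or_gt τ t with h2 | h2
  · have hpos : 0 < τ - s := by linarith
    obtain ⟨N, hN⟩ := exists_nat_gt (1 / (τ - s))
    filter_upwards [eventually_ge_atTop N] with k hk
    rw [Set.indicator_of_mem (show τ ∈ Set.Ioc s t from ⟨h1, h2⟩)]
    have hk' : 1 / (τ - s) < k := lt_of_lt_of_le hN (by exact_mod_cast hk)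
    rw [div_lt_iff₀ hpos] at hk'
    have h3 : (0 : ℝ) ≤ k := Nat.cast_nonneg k
    unfold pk
    rw [min_eq_left, max_eq_right zero_le_one]
    exact le_min hk'.le (by nlinarith)
  · have hpos : 0 < τ - t := by linarith
    obtain ⟨N, hN⟩ := exists_nat_gt (1 / (τ - t))
    filter_upwards [eventually_ge_atTop N] with k hk
    rw [Set.indicator_of_notMem (by simp [h2])]
    have hk' : 1 / (τ - t) < k := lt_of_lt_of_le hN (by exact_mod_cast hk)
    rw [div_lt_iff₀ hpos] at hk'
    refine (max_eq_left ?_).symm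
    exact (min_le_right _ _).trans ((min_le_right _ _).trans (by linarith))

/-- primitive of `pk` -/
def psik (s t : ℝ) (k : ℕ) (τ : ℝ) : ℝ := ∫ r in (t + 1)..τ, pk s t k r

theorem psik_hasDerivAt (s t : ℝ) (k : ℕ) (τ : ℝ) : HasDerivAt (psik s t k) (pk s t k τ) τ :=
  (pk_continuous s t k).integral_hasStrictDerivAt (t + 1) τ |>.hasDerivAt

theorem psik_bound {s t : ℝ} (hst : s < t) {k : ℕ} (hk : 1 ≤ k) (τ : ℝ) :
    |psik s t k τ| ≤ t + 1 - s := by
  have h1 : |psik s t k τ| ≤ ∫ r in Set.uIoc (t + 1) τ, ‖pk s t k r‖ := by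
    rw [← Real.norm_eq_abs]
    exact intervalIntegral.norm_integral_le_integral_norm_uIoc
  have hi : Integrable ((Set.Icc s (t + 1)).indicator (fun _ => (1 : ℝ))) volume := by
    rw [integrable_indicator_iff measurableSet_Icc]
    simp
  refine h1.trans ?_
  calc ∫ r in Set.uIoc (t + 1) τ, ‖pk s t k r‖
      ≤ ∫ r in Set.uIoc (t + 1) τ, (Set.Icc s (t + 1)).indicator (fun _ => (1 : ℝ)) r := by
        refine integral_mono_of_nonneg (Eventually.of_forall fun r => norm_nonneg _)
          hi.integrableOn (Eventually.of_forall fun r => ?_)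
        simp only
        rw [Real.norm_eq_abs, abs_of_nonneg (pk_nonneg _ _ _ _)]
        exact pk_le_indicator s t hk r
    _ ≤ ∫ r, (Set.Icc s (t + 1)).indicator (fun _ => (1 : ℝ)) r :=
        setIntegral_le_integral hi (Eventually.of_forall fun r =>
          Set.indicator_nonneg (fun _ _ => zero_le_one) r)
    _ = t + 1 - s := by
        rw [integral_indicator measurableSet_Icc]
        simp [hst.le.trans (by linarith : t ≤ t + 1)]

/-- the ramp -/
def ramp (s t τ : ℝ) : ℝ := t - max s (min t τ)

theorem ramp_continuous (s t : ℝ) : Continuous (ramp s t) := by unfold ramp; fun_prop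

theorem ramp_nonneg {s t : ℝ} (hst : s ≤ t) (τ : ℝ) : 0 ≤ ramp s t τ := by
  unfold ramp
  rw [sub_nonneg]
  exact max_le hst (min_le_left _ _)

theorem ramp_le {s t : ℝ} (τ : ℝ) : ramp s t τ ≤ t - s := by
  unfold ramp
  linarith [le_max_left s (min t τ)]

theorem integral_indicator_ramp {s t : ℝ} (hst : s < t) (τ : ℝ) :
    ∫ r in (t + 1)..τ, (Set.Ioc s t).indicator (fun _ => (1 : ℝ)) r = - ramp s t τ := by
  rcases le_total τ (t + 1) with h | h
  · rw [intervalIntegral.integral_symm, intervalIntegral.integral_of_le h,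
      integral_indicator measurableSet_Ioc, Measure.restrict_restrict measurableSet_Ioc,
      Set.Ioc_inter_Ioc]
    simp only [integral_const, smul_eq_mul, mul_one, measureReal_restrict_apply_univ]
    have h1 : t ⊓ (t + 1) = t := inf_of_le_left (by linarith)
    rw [h1, Real.volume_real_Ioc, ramp]
    congr 1
    rcases le_total τ s with h2 | h2
    · rw [sup_of_le_left h2, min_eq_right (h2.trans hst.le), max_eq_left h2,
        max_eq_left (by linarith)]
    · rcases le_total τ t with h3 | h3
      · rw [sup_of_le_right h2, min_eq_right h3, max_eq_right h2, max_eq_left (by linarith)]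
      · rw [sup_of_le_right h2, min_eq_left h3, max_eq_right hst.le, max_eq_right (by linarith),
          sub_self]
  · rw [intervalIntegral.integral_of_le h,
      integral_indicator measurableSet_Ioc, Measure.restrict_restrict measurableSet_Ioc]
    have h1 : Set.Ioc s t ∩ Set.Ioc (t + 1) τ = ∅ := by
      ext r
      simp only [Set.mem_inter_iff, Set.mem_Ioc, Set.mem_empty_iff_false, iff_false]
      rintro ⟨⟨_, h2⟩, h3, _⟩
      linarith
    rw [h1, ramp, min_eq_left (by linarith), max_eq_right hst.le]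
    simp

theorem psik_tendsto {s t : ℝ} (hst : s < t) (τ : ℝ) :
    Tendsto (fun k => psik s t k τ) atTop (𝓝 (- ramp s t τ)) := by
  rw [← integral_indicator_ramp hst]
  unfold psik
  refine intervalIntegral.tendsto_integral_filter_of_dominated_convergence (fun _ => (1 : ℝ))
    ?_ ?_ intervalIntegrable_const ?_
  · exact Eventually.of_forall fun k => (pk_continuous s t k).aestronglyMeasurable
  · refine Eventually.of_forall fun k => Eventually.of_forall fun r _ => ?_
    rw [Real.norm_eq_abs, abs_of_nonneg (pk_nonneg _ _ _ _)]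
    exact pk_le_one _ _ _ _
  · exact Eventually.of_forall fun r _ => pk_tendsto hst r

/-- exact formula for the mass in a slab -/
theorem slab_eq {u : Sp d → ℝ} {G : Fin d → Sp d → ℝ} (h : IsH1 u G) (a : Fin d)
    {s t : ℝ} (hst : s < t) :
    ∫ x, (Set.Ioc s t).indicator (fun _ => (1 : ℝ)) (x a) * (u x * u x)
      = ∫ x, (2 * ramp s t (x a)) * (u x * G a x) := by
  have hca : Continuous fun x : Sp d => x a := by fun_prop
  have hu2 : Integrable (fun x => u x * u x) volume := h.memLp.integrable_mul h.memLp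
  have huG : Integrable (fun x => u x * G a x) volume := h.memLp.integrable_mul (h.memLp_grad a)
  have hk : ∀ k : ℕ, ∫ x, pk s t (k + 1) (x a) * (u x * u x)
      = - ∫ x, (2 * psik s t (k + 1) (x a)) * (u x * G a x) := fun k =>
    ibp_ramp h a (psik s t (k + 1)) (pk s t (k + 1)) (pk_continuous _ _ _)
      (psik_hasDerivAt _ _ _) (K := t + 1 - s + 1)
      (fun τ => (psik_bound hst (by omega) τ).trans (by linarith))
      (fun τ => by
        rw [abs_of_nonneg (pk_nonneg _ _ _ _)]
        exact (pk_le_one _ _ _ _).trans (by linarith))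
  have t1 : Tendsto (fun k : ℕ => ∫ x, pk s t (k + 1) (x a) * (u x * u x)) atTop
      (𝓝 (∫ x, (Set.Ioc s t).indicator (fun _ => (1 : ℝ)) (x a) * (u x * u x))) := by
    refine tendsto_integral_of_dominated_convergence (fun x => ‖u x * u x‖) ?_ hu2.norm ?_ ?_
    · intro k
      exact ((pk_continuous _ _ _).comp hca).aestronglyMeasurable.mul hu2.1
    · intro k
      refine Eventually.of_forall fun x => ?_
      rw [norm_mul, Real.norm_eq_abs (pk _ _ _ _), abs_of_nonneg (pk_nonneg _ _ _ _)]
      exact mul_le_of_le_one_left (norm_nonneg _) (pk_le_one _ _ _ _)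
    · refine Eventually.of_forall fun x => ?_
      exact ((pk_tendsto hst (x a)).comp (tendsto_add_atTop_nat 1)).mul_const _
  have t2 : Tendsto (fun k : ℕ => ∫ x, (2 * psik s t (k + 1) (x a)) * (u x * G a x)) atTop
      (𝓝 (∫ x, (2 * -ramp s t (x a)) * (u x * G a x))) := by
    refine tendsto_integral_of_dominated_convergence
      (fun x => (2 * (t + 1 - s)) * ‖u x * G a x‖) ?_ (huG.norm.const_mul _) ?_ ?_
    · intro k
      have hc : Continuous (psik s t (k + 1)) :=
        continuous_iff_continuousAt.2 fun τ => (psik_hasDerivAt _ _ _ τ).continuousAt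
      exact (continuous_const.mul (hc.comp hca)).aestronglyMeasurable.mul huG.1
    · intro k
      refine Eventually.of_forall fun x => ?_
      rw [norm_mul, norm_mul, Real.norm_eq_abs, Real.norm_eq_abs, abs_two]
      gcongr
      exact psik_bound hst (by omega) _
    · refine Eventually.of_forall fun x => ?_
      exact (((psik_tendsto hst (x a)).comp (tendsto_add_atTop_nat 1)).const_mul 2).mul_const _
  simp only [hk] at t1
  have t3 := tendsto_nhds_unique t1 t2.neg
  rw [t3, ← integral_neg]
  refine integral_congr_ae (Eventually.of_forall fun x => ?_)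
  simp only
  ring

theorem abs_integral_mul_le' {f g : Sp d → ℝ} (hf : MemLp f 2 volume) (hg : MemLp g 2 volume) :
    ∫ x, |f x| * |g x| ≤ Real.sqrt (∫ x, f x ^ 2) * Real.sqrt (∫ x, g x ^ 2) := by
  have h := integral_mul_le_Lp_mul_Lq_of_nonneg (μ := (volume : Measure (Sp d)))
    Real.HolderConjugate.two_two (f := fun x => |f x|) (g := fun x => |g x|)
    (Eventually.of_forall fun x => abs_nonneg _) (Eventually.of_forall fun x => abs_nonneg _)
    (by simpa [Real.norm_eq_abs] using hf.norm) (by simpa [Real.norm_eq_abs] using hg.norm)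
  simp only [Real.rpow_two, sq_abs] at h
  rwa [← Real.sqrt_eq_rpow, ← Real.sqrt_eq_rpow] at h

/-- A6. Mass in a slab is at most a constant times its width. -/
theorem IsH1.slab {d : ℕ} {u : Sp d → ℝ} {G : Fin d → Sp d → ℝ} (h : IsH1 u G) (a : Fin d)
    {s t : ℝ} (hst : s ≤ t) :
    ∫ x in {x : Sp d | s < x a ∧ x a ≤ t}, u x ^ 2 ≤
      2 * (t - s) * Real.sqrt (∫ x, u x ^ 2) * Real.sqrt (∫ x, G a x ^ 2) := by
  rcases hst.eq_or_lt with h0 | h0
  · subst h0
    have : {x : Sp d | s < x a ∧ x a ≤ s} = ∅ := by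
      ext x
      simp only [Set.mem_ofPred_eq, Set.mem_empty_iff_false, iff_false]
      rintro ⟨h1, h2⟩
      linarith
    rw [this]
    simp
  have hm : MeasurableSet {x : Sp d | s < x a ∧ x a ≤ t} := by
    have hca : Measurable fun x : Sp d => x a := by fun_prop
    exact hca measurableSet_Ioc
  have e1 : ∫ x in {x : Sp d | s < x a ∧ x a ≤ t}, u x ^ 2
      = ∫ x, (Set.Ioc s t).indicator (fun _ => (1 : ℝ)) (x a) * (u x * u x) := by
    rw [← integral_indicator hm]
    refine integral_congr_ae (Eventually.of_forall fun x => ?_)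
    simp only
    by_cases hx : x ∈ {x : Sp d | s < x a ∧ x a ≤ t}
    · rw [Set.indicator_of_mem hx, Set.indicator_of_mem (show x a ∈ Set.Ioc s t from hx)]
      ring
    · rw [Set.indicator_of_notMem hx, Set.indicator_of_notMem (show x a ∉ Set.Ioc s t from hx)]
      ring
  rw [e1, slab_eq h a h0]
  have i1 : Integrable (fun x => |u x| * |G a x|) volume := by
    have := (h.memLp.integrable_mul (h.memLp_grad a)).norm
    refine this.congr (Eventually.of_forall fun x => ?_)
    simp
  calc ∫ x, (2 * ramp s t (x a)) * (u x * G a x)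
      ≤ ∫ x, 2 * (t - s) * (|u x| * |G a x|) := by
        have hca : Continuous fun x : Sp d => x a := by fun_prop
        have hr : ∀ x : Sp d, |2 * ramp s t (x a)| ≤ 2 * (t - s) := fun x => by
          rw [abs_mul, abs_two, abs_of_nonneg (ramp_nonneg hst _)]
          have := ramp_le (s := s) (t := t) (x a)
          linarith
        refine integral_mono (integrable_mul3
          (continuous_const.mul ((ramp_continuous s t).comp hca)).aestronglyMeasurable hr h.memLp
          (h.memLp_grad a)) (i1.const_mul _) fun x => ?_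
        refine (le_abs_self _).trans ?_
        rw [abs_mul, abs_mul (u x)]
        gcongr
        exact hr x
    _ = 2 * (t - s) * ∫ x, |u x| * |G a x| := integral_const_mul _ _
    _ ≤ _ := by
        rw [mul_assoc (2 * (t - s))]
        have : 0 ≤ t - s := by linarith
        gcongr
        exact abs_integral_mul_le' h.memLp (h.memLp_grad a)

end Pool.Agent.Helper3.LL
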