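import Pool.Agent.Helper3.LL_A2own

/-!
# Task G (Harriman orbitals) for MP_2a55aa_mp
-/

open MeasureTheory Filter Topology
open scoped ENNReal

noncomputable section

namespace Pool.Agent.Helper3.LL

open Pool.Agent.Helper1.LL

variable {d : ℕ}

/-- mass to the left of the hyperplane `x_a = t` -/
def cdf (φ : Sp d → ℝ) (a : Fin d) (t : ℝ) : ℝ :=
  ∫ x, (Set.Iic t).indicator (fun _ => (1 : ℝ)) (x a) * (φ x * φ x)

/-- the derivative of `cdf` -/
def pdf (φ : Sp d → ℝ) (G : Fin d → Sp d → ℝ) (a : Fin d) (t : ℝ) : ℝ :=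
  ∫ x, (Set.Iic t).indicator (fun _ => (1 : ℝ)) (x a) * (2 * (φ x * G a x))

theorem ind_nonneg (S : Set ℝ) (y : ℝ) : 0 ≤ S.indicator (fun _ => (1 : ℝ)) y :=
  Set.indicator_nonneg (fun _ _ => zero_le_one) y

theorem ind_le (S : Set ℝ) (y : ℝ) : S.indicator (fun _ => (1 : ℝ)) y ≤ 1 :=
  Set.indicator_le_self' (fun _ _ => zero_le_one) y

theorem measurable_coord (a : Fin d) : Measurable fun x : Sp d => x a := by fun_prop

theorem integrable_ind {g : Sp d → ℝ} (hg : Integrable g volume) (a : Fin d) {S : Set ℝ}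
    (hS : MeasurableSet S) :
    Integrable (fun x => S.indicator (fun _ => (1 : ℝ)) (x a) * g x) volume := by
  refine hg.bdd_mul (c := 1) ?_ ?_
  · exact ((measurable_const.indicator hS).comp (measurable_coord a)).aestronglyMeasurable
  · refine Eventually.of_forall fun x => ?_
    rw [Real.norm_eq_abs, abs_of_nonneg (ind_nonneg _ _)]
    exact ind_le _ _

theorem ind_sub {s t : ℝ} (hst : s ≤ t) (y : ℝ) :
    (Set.Iic t).indicator (fun _ => (1 : ℝ)) y - (Set.Iic s).indicator (fun _ => (1 : ℝ)) y
      = (Set.Ioc s t).indicator (fun _ => (1 : ℝ)) y := by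
  by_cases h1 : y ≤ s
  · have h2 : y ≤ t := h1.trans hst
    have h3 : ¬ s < y := not_lt.2 h1
    simp [Set.indicator, h1, h2, h3]
  · have h3 : s < y := not_le.1 h1
    by_cases h2 : y ≤ t <;> simp [Set.indicator, h1, h2, h3]

theorem hyperplane_ae (a : Fin d) (t : ℝ) : ∀ᵐ x : Sp d, x a ≠ t := by
  have h1 : ∀ᵐ y : Fin d → ℝ, y a ≠ t := by
    rw [volume_pi]
    exact Measure.ae_eval_ne (μ := fun _ : Fin d => (volume : Measure ℝ)) a t
  exact (PiLp.volume_preserving_ofLp (Fin d)).quasiMeasurePreserving.ae h1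

theorem integral_indicator_Iic {s t : ℝ} (hst : s ≤ t) (y : ℝ) :
    ∫ τ in s..t, (Set.Iic τ).indicator (fun _ => (1 : ℝ)) y = ramp s t y := by
  have h1 : ∀ τ, (Set.Iic τ).indicator (fun _ => (1 : ℝ)) y
      = (Set.Ici y).indicator (fun _ => (1 : ℝ)) τ := by
    intro τ
    simp [Set.indicator]
  simp only [h1]
  rw [intervalIntegral.integral_of_le hst, integral_Ioc_eq_integral_Ioo,
    ← integral_Ico_eq_integral_Ioo, integral_indicator measurableSet_Ici,
    Measure.restrict_restrict measurableSet_Ici]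
  have h2 : Set.Ici y ∩ Set.Ico s t = Set.Ico (max y s) t := by
    ext r
    simp only [Set.mem_inter_iff, Set.mem_Ici, Set.mem_Ico, max_le_iff]
    tauto
  rw [h2]
  simp only [integral_const, smul_eq_mul, mul_one, measureReal_restrict_apply_univ]
  rw [Real.volume_real_Ico, ramp]
  rcases le_total y s with h3 | h3
  · rw [max_eq_right h3, min_eq_right (h3.trans hst), max_eq_left h3, max_eq_left (by linarith)]
  · rcases le_total y t with h4 | h4
    · rw [max_eq_left h3, min_eq_right h4, max_eq_right h3, max_eq_left (by linarith)]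
    · rw [max_eq_left h3, min_eq_left h4, max_eq_right hst, max_eq_right (by linarith), sub_self]

section

variable {φ : Sp d → ℝ} {G : Fin d → Sp d → ℝ} (h : IsH1 φ G) (a : Fin d)

include h

theorem int_phi2 : Integrable (fun x => φ x * φ x) volume := h.memLp.integrable_mul h.memLp

theorem int_phiG : Integrable (fun x => 2 * (φ x * G a x)) volume :=
  (h.memLp.integrable_mul (h.memLp_grad a)).const_mul 2

theorem cdf_sub {s t : ℝ} (hst : s < t) :
    cdf φ a t - cdf φ a s = ∫ τ in s..t, pdf φ G a τ := by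
  have h1 : cdf φ a t - cdf φ a s
      = ∫ x, (Set.Ioc s t).indicator (fun _ => (1 : ℝ)) (x a) * (φ x * φ x) := by
    unfold cdf
    rw [← integral_sub (integrable_ind (int_phi2 h) a measurableSet_Iic)
      (integrable_ind (int_phi2 h) a measurableSet_Iic)]
    refine integral_congr_ae (Eventually.of_forall fun x => ?_)
    simp only
    rw [← sub_mul, ind_sub hst.le]
  rw [h1, slab_eq h a hst]
  unfold pdf
  rw [intervalIntegral_integral_swap]
  · refine integral_congr_ae (Eventually.of_forall fun x => ?_)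
    simp only
    rw [intervalIntegral.integral_mul_const, integral_indicator_Iic hst.le]
    ring
  · have hg := int_phiG h a
    have hfin : IsFiniteMeasure (volume.restrict (Set.uIoc s t)) := by
      rw [Set.uIoc_of_le hst.le]; infer_instance
    have h2 : Integrable (fun p : ℝ × Sp d => (2 * (φ p.2 * G a p.2)))
        ((volume.restrict (Set.uIoc s t)).prod volume) := hg.comp_snd _
    refine (h2.bdd_mul (c := 1) (f := fun p : ℝ × Sp d =>
      (Set.Iic p.1).indicator (fun _ => (1 : ℝ)) (p.2 a)) ?_ ?_)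
    · have hS : MeasurableSet {p : ℝ × Sp d | p.2 a ≤ p.1} :=
        measurableSet_le ((measurable_coord a).comp measurable_snd) measurable_fst
      have : (fun p : ℝ × Sp d => (Set.Iic p.1).indicator (fun _ => (1 : ℝ)) (p.2 a))
          = {p : ℝ × Sp d | p.2 a ≤ p.1}.indicator (fun _ => (1 : ℝ)) := by
        funext p
        simp [Set.indicator]
      rw [this]
      exact (measurable_const.indicator hS).aestronglyMeasurable
    · refine Eventually.of_forall fun p => ?_
      rw [Real.norm_eq_abs, abs_of_nonneg (ind_nonneg _ _)]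
      exact ind_le _ _

theorem pdf_continuous : Continuous (pdf φ G a) := by
  rw [continuous_iff_continuousAt]
  intro t
  unfold pdf
  refine continuousAt_of_dominated (bound := fun x => ‖2 * (φ x * G a x)‖) ?_ ?_
    (int_phiG h a).norm ?_
  · exact Eventually.of_forall fun s => (integrable_ind (int_phiG h a) a measurableSet_Iic).1
  · refine Eventually.of_forall fun s => Eventually.of_forall fun x => ?_
    rw [norm_mul, Real.norm_eq_abs (Set.indicator _ _ _), abs_of_nonneg (ind_nonneg _ _)]
    exact mul_le_of_le_one_left (norm_nonneg _) (ind_le _ _)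
  · filter_upwards [hyperplane_ae a t] with x hx
    refine ContinuousAt.mul ?_ continuousAt_const
    rcases lt_or_gt_of_ne hx with h1 | h1
    · have : ∀ᶠ s in 𝓝 t, (1 : ℝ) = (Set.Iic s).indicator (fun _ => (1 : ℝ)) (x a) := by
        filter_upwards [lt_mem_nhds h1] with s hs
        rw [Set.indicator_of_mem (show x a ∈ Set.Iic s from hs.le)]
      exact continuousAt_const.congr this
    · have : ∀ᶠ s in 𝓝 t, (0 : ℝ) = (Set.Iic s).indicator (fun _ => (1 : ℝ)) (x a) := by
        filter_upwards [gt_mem_nhds h1] with s hs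
        rw [Set.indicator_of_notMem (show x a ∉ Set.Iic s from not_le.2 hs)]
      exact continuousAt_const.congr this

theorem cdf_eq (t : ℝ) : cdf φ a t = cdf φ a 0 + ∫ τ in (0 : ℝ)..t, pdf φ G a τ := by
  rcases lt_trichotomy 0 t with h1 | h1 | h1
  · rw [← cdf_sub h a h1]; ring
  · rw [← h1]; simp
  · rw [intervalIntegral.integral_symm, ← cdf_sub h a h1]; ring

theorem cdf_hasDerivAt (t : ℝ) : HasDerivAt (cdf φ a) (pdf φ G a t) t := by
  have h1 : cdf φ a = fun t => cdf φ a 0 + ∫ τ in (0 : ℝ)..t, pdf φ G a τ :=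
    funext fun t => cdf_eq h a t
  rw [h1]
  exact (((pdf_continuous h a).integral_hasStrictDerivAt 0 t).hasDerivAt).const_add _

omit h in
theorem cdf_mono (hφ2 : Integrable (fun x => φ x * φ x) volume) : Monotone (cdf φ a) := by
  intro s t hst
  unfold cdf
  refine integral_mono (integrable_ind hφ2 a measurableSet_Iic)
    (integrable_ind hφ2 a measurableSet_Iic) fun x => ?_
  refine mul_le_mul_of_nonneg_right ?_ (mul_self_nonneg _)
  have := ind_sub hst (x a)
  have := ind_nonneg (Set.Ioc s t) (x a)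
  linarith

theorem pdf_nonneg (t : ℝ) : 0 ≤ pdf φ G a t := by
  rw [← (cdf_hasDerivAt h a t).deriv]
  exact (cdf_mono a (int_phi2 h)).deriv_nonneg

theorem pdf_le (t : ℝ) : |pdf φ G a t| ≤
    2 * (Real.sqrt (∫ x, φ x ^ 2) * Real.sqrt (∫ x, G a x ^ 2)) := by
  have i1 : Integrable (fun x => |φ x| * |G a x|) volume := by
    have := (h.memLp.integrable_mul (h.memLp_grad a)).norm
    refine this.congr (Eventually.of_forall fun x => ?_)
    simp
  calc |pdf φ G a t| ≤ ∫ x, ‖(Set.Iic t).indicator (fun _ => (1 : ℝ)) (x a) * (2 * (φ x * G a x))‖ := by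
        rw [← Real.norm_eq_abs]
        exact norm_integral_le_integral_norm _
    _ ≤ ∫ x, 2 * (|φ x| * |G a x|) := by
        refine integral_mono (integrable_ind (int_phiG h a) a measurableSet_Iic).norm
          (i1.const_mul 2) fun x => ?_
        simp only
        rw [norm_mul, Real.norm_eq_abs (Set.indicator _ _ _), abs_of_nonneg (ind_nonneg _ _),
          Real.norm_eq_abs, abs_mul, abs_two, abs_mul]
        exact mul_le_of_le_one_left (by positivity) (ind_le _ _)
    _ = 2 * ∫ x, |φ x| * |G a x| := integral_const_mul _ _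
    _ ≤ _ := by gcongr; exact abs_integral_mul_le' h.memLp (h.memLp_grad a)

theorem cdf_atBot : Tendsto (cdf φ a) atBot (𝓝 0) := by
  have : Tendsto (cdf φ a) atBot (𝓝 (∫ _x : Sp d, (0 : ℝ))) := by
    unfold cdf
    refine tendsto_integral_filter_of_dominated_convergence (fun x => ‖φ x * φ x‖) ?_ ?_
      (int_phi2 h).norm ?_
    · exact Eventually.of_forall fun s => (integrable_ind (int_phi2 h) a measurableSet_Iic).1
    · refine Eventually.of_forall fun s => Eventually.of_forall fun x => ?_
      rw [norm_mul, Real.norm_eq_abs (Set.indicator _ _ _), abs_of_nonneg (ind_nonneg _ _)]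
      exact mul_le_of_le_one_left (norm_nonneg _) (ind_le _ _)
    · refine Eventually.of_forall fun x => ?_
      refine tendsto_const_nhds.congr' ?_
      filter_upwards [eventually_lt_atBot (x a)] with s hs
      rw [Set.indicator_of_notMem (show x a ∉ Set.Iic s from not_le.2 hs), zero_mul]
  simpa using this

theorem cdf_atTop : Tendsto (cdf φ a) atTop (𝓝 (∫ x, φ x * φ x)) := by
  unfold cdf
  refine tendsto_integral_filter_of_dominated_convergence (fun x => ‖φ x * φ x‖) ?_ ?_
    (int_phi2 h).norm ?_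
  · exact Eventually.of_forall fun s => (integrable_ind (int_phi2 h) a measurableSet_Iic).1
  · refine Eventually.of_forall fun s => Eventually.of_forall fun x => ?_
    rw [norm_mul, Real.norm_eq_abs (Set.indicator _ _ _), abs_of_nonneg (ind_nonneg _ _)]
    exact mul_le_of_le_one_left (norm_nonneg _) (ind_le _ _)
  · refine Eventually.of_forall fun x => ?_
    refine tendsto_const_nhds.congr' ?_
    filter_upwards [eventually_ge_atTop (x a)] with s hs
    rw [Set.indicator_of_mem (show x a ∈ Set.Iic s from hs), one_mul]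

/-- the law of `x_a` under the density `φ²` -/
def lawm (φ : Sp d → ℝ) (a : Fin d) : Measure ℝ :=
  (volume.withDensity fun x => ENNReal.ofReal (φ x * φ x)).map fun x => x a

theorem lawm_eq : lawm φ a = volume.withDensity fun t => ENNReal.ofReal (pdf φ G a t) := by
  have hmeas : ∀ S : Set ℝ, MeasurableSet S → lawm φ a S
      = ENNReal.ofReal (∫ x, S.indicator (fun _ => (1 : ℝ)) (x a) * (φ x * φ x)) := by
    intro S hS
    unfold lawm
    rw [Measure.map_apply (measurable_coord a) hS,
      withDensity_apply _ (measurable_coord a hS)]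
    rw [ofReal_integral_eq_lintegral_ofReal (integrable_ind (int_phi2 h) a hS)
      (Eventually.of_forall fun x => mul_nonneg (ind_nonneg _ _) (mul_self_nonneg _)),
      ← lintegral_indicator (measurable_coord a hS)]
    refine lintegral_congr fun x => ?_
    by_cases hx : x a ∈ S
    · rw [Set.indicator_of_mem (show x ∈ (fun x : Sp d => x a) ⁻¹' S from hx),
        Set.indicator_of_mem hx, one_mul]
    · rw [Set.indicator_of_notMem (show x ∉ (fun x : Sp d => x a) ⁻¹' S from hx),
        Set.indicator_of_notMem hx, zero_mul, ENNReal.ofReal_zero]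
  refine Measure.ext_of_Ioc' _ _ (fun s t hst => ?_) (fun s t hst => ?_)
  · rw [hmeas _ measurableSet_Ioc]; exact ENNReal.ofReal_ne_top
  · rw [hmeas _ measurableSet_Ioc, withDensity_apply _ measurableSet_Ioc]
    have h1 : ∫ x, (Set.Ioc s t).indicator (fun _ => (1 : ℝ)) (x a) * (φ x * φ x)
        = ∫ τ in Set.Ioc s t, pdf φ G a τ := by
      rw [← intervalIntegral.integral_of_le hst.le, ← cdf_sub h a hst]
      unfold cdf
      rw [← integral_sub (integrable_ind (int_phi2 h) a measurableSet_Iic)
        (integrable_ind (int_phi2 h) a measurableSet_Iic)]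
      refine integral_congr_ae (Eventually.of_forall fun x => ?_)
      simp only
      rw [← sub_mul, ind_sub hst.le]
    rw [h1, ofReal_integral_eq_lintegral_ofReal]
    · exact ((pdf_continuous h a).integrableOn_Icc).mono_set Set.Ioc_subset_Icc_self
    · exact Eventually.of_forall fun τ => pdf_nonneg h a τ

theorem integral_coord (g : ℝ → ℂ) (hg : Continuous g) :
    ∫ x, ((φ x * φ x : ℝ) : ℂ) * g (x a) = ∫ t, ((pdf φ G a t : ℝ) : ℂ) * g t := by
  have hm : AEMeasurable (fun x => ENNReal.ofReal (φ x * φ x)) volume :=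
    (int_phi2 h).1.aemeasurable.ennreal_ofReal
  have h1 : ∫ t, g t ∂(lawm φ a) = ∫ x, ((φ x * φ x : ℝ) : ℂ) * g (x a) := by
    unfold lawm
    rw [integral_map (measurable_coord a).aemeasurable hg.aestronglyMeasurable,
      integral_withDensity_eq_integral_toReal_smul₀ hm
        (Eventually.of_forall fun x => ENNReal.ofReal_lt_top)]
    refine integral_congr_ae (Eventually.of_forall fun x => ?_)
    simp only
    rw [ENNReal.toReal_ofReal (mul_self_nonneg _), Complex.real_smul]
  have h2 : ∫ t, g t ∂(lawm φ a) = ∫ t, ((pdf φ G a t : ℝ) : ℂ) * g t := by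
    rw [lawm_eq h a, integral_withDensity_eq_integral_toReal_smul₀
      (pdf_continuous h a).measurable.ennreal_ofReal.aemeasurable
        (Eventually.of_forall fun x => ENNReal.ofReal_lt_top)]
    refine integral_congr_ae (Eventually.of_forall fun t => ?_)
    simp only
    rw [ENNReal.toReal_ofReal (pdf_nonneg h a t), Complex.real_smul]
  rw [← h1, h2]

theorem integrable_pdf : Integrable (pdf φ G a) volume := by
  refine ⟨(pdf_continuous h a).aestronglyMeasurable, ?_⟩
  rw [hasFiniteIntegral_iff_ofReal (Eventually.of_forall (pdf_nonneg h a))]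
  have h1 : (lawm φ a) Set.univ = ∫⁻ t, ENNReal.ofReal (pdf φ G a t) := by
    rw [lawm_eq h a, withDensity_apply _ MeasurableSet.univ, Measure.restrict_univ]
  have h2 : (lawm φ a) Set.univ = ∫⁻ x, ENNReal.ofReal (φ x * φ x) := by
    unfold lawm
    rw [Measure.map_apply (measurable_coord a) MeasurableSet.univ, Set.preimage_univ,
      withDensity_apply _ MeasurableSet.univ, Measure.restrict_univ]
  rw [← h1, h2]
  exact (int_phi2 h).lintegral_lt_top

/-- the exponential of the distribution function -/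
def expF (φ : Sp d → ℝ) (a : Fin d) (l : ℝ) (t : ℝ) : ℂ :=
  Complex.exp (2 * Real.pi * l * cdf φ a t * Complex.I)

theorem expF_hasDerivAt (l t : ℝ) :
    HasDerivAt (expF φ a l) (expF φ a l t * (2 * Real.pi * l * pdf φ G a t * Complex.I)) t := by
  have h1 : HasDerivAt (fun t => (cdf φ a t : ℂ)) ((pdf φ G a t : ℝ) : ℂ) t :=
    (cdf_hasDerivAt h a t).ofReal_comp
  have h2 := ((h1.const_mul (2 * Real.pi * l : ℂ)).mul_const Complex.I).cexp
  exact h2

theorem expF_continuous (l : ℝ) : Continuous (expF φ a l) :=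
  continuous_iff_continuousAt.2 fun t => (expF_hasDerivAt h a l t).continuousAt

theorem expF_contDiff (l : ℝ) : ContDiff ℝ 1 (expF φ a l) := by
  rw [contDiff_one_iff_deriv]
  refine ⟨fun t => (expF_hasDerivAt h a l t).differentiableAt, ?_⟩
  have : deriv (expF φ a l) = fun t => expF φ a l t * (2 * Real.pi * l * pdf φ G a t * Complex.I) :=
    funext fun t => (expF_hasDerivAt h a l t).deriv
  rw [this]
  have hp := pdf_continuous h a
  have hc := expF_continuous h a l
  have hp' : Continuous fun t => ((pdf φ G a t : ℝ) : ℂ) := Complex.continuous_ofReal.comp hp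
  fun_prop

omit h in
theorem norm_expF (l t : ℝ) : ‖expF φ a l t‖ = 1 := by
  unfold expF
  have : (2 * Real.pi * l * cdf φ a t * Complex.I : ℂ)
      = ((2 * Real.pi * l * cdf φ a t : ℝ) : ℂ) * Complex.I := by push_cast; ring
  rw [this, Complex.norm_exp_ofReal_mul_I]

theorem integral_expF (hφ : ∫ x, φ x ^ 2 = 1) (m : ℤ) :
    ∫ x, ((φ x * φ x : ℝ) : ℂ) * expF φ a m (x a) = if m = 0 then 1 else 0 := by
  have hφ' : ∫ x, φ x * φ x = 1 := by
    rw [← hφ]; refine integral_congr_ae (Eventually.of_forall fun x => ?_); simp only; ring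
  split_ifs with hm
  · subst hm
    have h1 : ∀ x : Sp d, ((φ x * φ x : ℝ) : ℂ) * expF φ a ((0 : ℤ) : ℝ) (x a)
        = ((φ x * φ x : ℝ) : ℂ) := by
      intro x
      simp [expF]
    simp only [h1]
    rw [integral_complex_ofReal, hφ']
    norm_num
  · rw [integral_coord h a _ (expF_continuous h a m)]
    have hc : (2 * Real.pi * (m : ℝ) * Complex.I : ℂ) ≠ 0 := by
      have : (m : ℂ) ≠ 0 := by exact_mod_cast hm
      have h3 : (Real.pi : ℂ) ≠ 0 := by exact_mod_cast Real.pi_ne_zero
      simp [this, h3, Complex.I_ne_zero]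
    have hd : ∀ t, HasDerivAt (fun t => expF φ a m t / (2 * Real.pi * (m : ℝ) * Complex.I))
        (((pdf φ G a t : ℝ) : ℂ) * expF φ a m t) t := by
      intro t
      have h1 := (expF_hasDerivAt h a (m : ℝ) t).div_const (2 * Real.pi * (m : ℝ) * Complex.I)
      refine h1.congr_deriv ?_
      rw [div_eq_iff hc]
      push_cast
      ring
    have hi : Integrable (fun t => ((pdf φ G a t : ℝ) : ℂ) * expF φ a m t) volume := by
      have h1 : Integrable (fun t => expF φ a m t * ((pdf φ G a t : ℝ) : ℂ)) volume :=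
        (integrable_pdf h a).ofReal.bdd_mul (c := 1)
          (expF_continuous h a m).aestronglyMeasurable
          (Eventually.of_forall fun t => (norm_expF a _ t).le)
      refine h1.congr (Eventually.of_forall fun t => mul_comm _ _)
    have hc0 : Tendsto (fun t => (cdf φ a t : ℂ)) atBot (𝓝 ((0 : ℝ) : ℂ)) :=
      (Complex.continuous_ofReal.tendsto _).comp (cdf_atBot h a)
    have hc1 : Tendsto (fun t => (cdf φ a t : ℂ)) atTop (𝓝 ((1 : ℝ) : ℂ)) := by
      have := cdf_atTop h a
      rw [hφ'] at this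
      exact (Complex.continuous_ofReal.tendsto _).comp this
    have hE : Continuous fun w : ℂ => Complex.exp (2 * Real.pi * (m : ℝ) * w * Complex.I)
        / (2 * Real.pi * (m : ℝ) * Complex.I) := by fun_prop
    have l0 := (hE.tendsto _).comp hc0
    have l1 := (hE.tendsto _).comp hc1
    rw [integral_of_hasDerivAt_of_tendsto hd hi l0 l1, ← sub_div]
    have e1 : Complex.exp (2 * Real.pi * (m : ℝ) * ((1 : ℝ) : ℂ) * Complex.I) = 1 := by
      rw [Complex.exp_eq_one_iff]
      exact ⟨m, by push_cast; ring⟩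
    rw [e1]
    simp

end

/-- G. Harriman label orbitals -/
theorem harriman {d : ℕ} (hd : 1 ≤ d) (φ : Sp d → ℝ) (G : Fin d → Sp d → ℝ) (h : IsH1 φ G)
    (hφ : ∫ x, φ x ^ 2 = 1) :
    ∃ C : ℝ, 0 ≤ C ∧ ∀ n : ℕ, ∃ (u : Fin n → Sp d → ℂ) (Du : Fin n → Fin d → Sp d → ℂ),
      (∀ j, IsH1 (u j) (Du j)) ∧ ON u ∧ (∀ j x, ‖u j x‖ ^ 2 = φ x ^ 2) ∧
      (∀ x, φ x = 0 → (∀ a, G a x = 0) → ∀ j, u j x = 0 ∧ ∀ a, Du j a x = 0) ∧
      ∑ j, dir (Du j) ≤ C * n ^ 3 := by
  set a : Fin d := ⟨0, hd⟩ with ha
  set B : ℝ := 2 * (Real.sqrt (∫ x, φ x ^ 2) * Real.sqrt (∫ x, G a x ^ 2)) with hB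
  have hB0 : 0 ≤ B := by positivity
  have hpdf : ∀ t, |pdf φ G a t| ≤ B := pdf_le h a
  have hdirG : 0 ≤ dir G := Finset.sum_nonneg fun b _ => integral_nonneg fun x => by positivity
  have hC0 : 0 ≤ 2 * dir G + 2 * d * (2 * Real.pi * B) ^ 2 := by positivity
  refine ⟨2 * dir G + 2 * d * (2 * Real.pi * B) ^ 2, hC0, fun n => ?_⟩
  -- the coordinate as a continuous linear map
  have hcoord : ∀ x : Sp d, HasFDerivAt (fun x : Sp d => x a)
      (EuclideanSpace.proj a : Sp d →L[ℝ] ℝ) x := hasFDerivAt_coord a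
  have hcoordC : ContDiff ℝ 1 (fun x : Sp d => x a) :=
    (EuclideanSpace.proj a : Sp d →L[ℝ] ℝ).contDiff
  have hder : ∀ (l : ℝ) (x : Sp d), HasFDerivAt (fun x : Sp d => expF φ a l (x a))
      ((ContinuousLinearMap.toSpanSingleton ℝ
        (expF φ a l (x a) * (2 * Real.pi * l * pdf φ G a (x a) * Complex.I))).comp
        (EuclideanSpace.proj a : Sp d →L[ℝ] ℝ)) x := fun l x =>
    HasFDerivAt.comp (g := expF φ a l) x (expF_hasDerivAt h a l (x a)).hasFDerivAt (hcoord x)
  have happ : ∀ (l : ℝ) (x v : Sp d), fderiv ℝ (fun x : Sp d => expF φ a l (x a)) x v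
      = v a • (expF φ a l (x a) * (2 * Real.pi * l * pdf φ G a (x a) * Complex.I)) := by
    intro l x v
    rw [(hder l x).fderiv]
    rfl
  have hnormc : ∀ (l t : ℝ), 0 ≤ l →
      ‖expF φ a l t * (2 * Real.pi * l * pdf φ G a t * Complex.I)‖ ≤ 2 * Real.pi * l * B := by
    intro l t hl
    rw [norm_mul, norm_expF, one_mul]
    simp only [norm_mul, Complex.norm_real, Complex.norm_I, mul_one, Real.norm_eq_abs,
      Complex.norm_ofNat, abs_of_nonneg hl, abs_of_pos Real.pi_pos]
    gcongr
    exact hpdf t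
  have hderbd : ∀ (l : ℝ) (x : Sp d), 0 ≤ l → ∀ b,
      ‖fderiv ℝ (fun x : Sp d => expF φ a l (x a)) x (eb b)‖ ≤ 2 * Real.pi * l * B := by
    intro l x hl b
    rw [happ, norm_smul]
    refine (mul_le_mul_of_nonneg_right (?_ : ‖(eb b : Sp d) a‖ ≤ 1) (norm_nonneg _)).trans ?_
    · unfold eb
      rw [PiLp.single_apply]
      split_ifs <;> simp
    · rw [one_mul]; exact hnormc l (x a) hl
  have hderop : ∀ (l : ℝ) (x : Sp d), 0 ≤ l →
      ‖fderiv ℝ (fun x : Sp d => expF φ a l (x a)) x‖ ≤ 2 * Real.pi * l * B := by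
    intro l x hl
    refine ContinuousLinearMap.opNorm_le_bound _ (by positivity) fun v => ?_
    rw [happ, norm_smul, mul_comm]
    exact mul_le_mul (hnormc l (x a) hl) (PiLp.norm_apply_le v a) (norm_nonneg _)
      (by positivity)
  set u : Fin n → Sp d → ℂ := fun j x => expF φ a (j : ℕ) (x a) * (φ x : ℂ) with hu
  set Du : Fin n → Fin d → Sp d → ℂ := fun j b x => expF φ a (j : ℕ) (x a) * (G b x : ℂ)
    + fderiv ℝ (fun x : Sp d => expF φ a (j : ℕ) (x a)) x (eb b) * (φ x : ℂ) with hDu
  refine ⟨u, Du, fun j => ?_, ⟨fun j => ?_, fun j k => ?_⟩, fun j x => ?_, fun x hx hG j => ?_, ?_⟩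
  · refine mul_C1 (ofReal' h) (fun x => expF φ a (j : ℕ) (x a))
      ((expF_contDiff h a _).comp hcoordC) (max 1 (2 * Real.pi * (j : ℕ) * B)) (fun x => ?_)
      (fun x => ?_)
    · rw [norm_expF]; exact le_max_left _ _
    · exact (hderop _ x (Nat.cast_nonneg _)).trans (le_max_right _ _)
  · have h1 : MemLp (fun x => (φ x : ℂ)) 2 volume := h.memLp.ofReal
    refine h1.mono ?_ (Eventually.of_forall fun x => ?_)
    · exact (((expF_continuous h a _).measurable.comp (measurable_coord a)).aestronglyMeasurable).mul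
        h1.1
    · simp only [hu]
      rw [norm_mul, norm_expF, one_mul]
  · have h1 := integral_expF h a hφ ((k : ℤ) - (j : ℤ))
    have h2 : ∀ x, star (u j x) * u k x
        = ((φ x * φ x : ℝ) : ℂ) * expF φ a (((k : ℤ) - (j : ℤ) : ℤ) : ℝ) (x a) := by
      intro x
      have e1 : star (expF φ a (j : ℕ) (x a)) = expF φ a (-(j : ℕ) : ℝ) (x a) := by
        unfold expF
        rw [Complex.star_def, ← Complex.exp_conj]
        congr 1
        simp only [map_mul, Complex.conj_ofReal, Complex.conj_I, map_ofNat, Complex.ofReal_neg]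
        ring
      have e2 : expF φ a (-(j : ℕ) : ℝ) (x a) * expF φ a (k : ℕ) (x a)
          = expF φ a (((k : ℤ) - (j : ℤ) : ℤ) : ℝ) (x a) := by
        unfold expF
        rw [← Complex.exp_add]
        congr 1
        push_cast
        ring
      simp only [hu, star_mul', e1, ← e2]
      simp only [Complex.star_def, Complex.conj_ofReal]
      push_cast
      ring
    simp only [h2]
    rw [h1]
    by_cases hjk : j = k
    · subst hjk; simp
    · have : ((k : ℤ) - (j : ℤ)) ≠ 0 := by
        intro h0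
        apply hjk
        ext
        omega
      rw [if_neg this, if_neg hjk]
  · simp only [hu]
    rw [norm_mul, norm_expF, one_mul, Complex.norm_real, Real.norm_eq_abs, sq_abs]
  · simp only [hu, hDu, hx, hG]
    simp
  · have hphi2 : Integrable (fun x => φ x ^ 2) volume := by
      have := int_phi2 h
      refine this.congr (Eventually.of_forall fun x => ?_)
      simp only; ring
    have hG2 : ∀ b, Integrable (fun x => ‖G b x‖ ^ 2) volume := fun b =>
      (h.memLp_grad b).integrable_norm_pow (by norm_num)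
    have hj : ∀ j : Fin n, dir (Du j) ≤ 2 * dir G + 2 * d * (2 * Real.pi * B) ^ 2 * n ^ 2 := by
      intro j
      have hjn : ((j : ℕ) : ℝ) ≤ n := by exact_mod_cast j.2.le
      have hb : ∀ b, ∫ x, ‖Du j b x‖ ^ 2 ≤ 2 * (∫ x, ‖G b x‖ ^ 2)
          + 2 * (2 * Real.pi * B * n) ^ 2 := by
        intro b
        have hpt : ∀ x, ‖Du j b x‖ ^ 2 ≤ 2 * ‖G b x‖ ^ 2
            + 2 * (2 * Real.pi * B * n) ^ 2 * φ x ^ 2 := by
          intro x
          have n1 : ‖Du j b x‖ ≤ ‖G b x‖ + (2 * Real.pi * B * n) * |φ x| := by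
            simp only [hDu]
            refine (norm_add_le _ _).trans ?_
            rw [norm_mul, norm_mul, norm_expF, one_mul, Complex.norm_real, Complex.norm_real,
              Real.norm_eq_abs (φ x)]
            gcongr
            refine (hderbd _ x (Nat.cast_nonneg _) b).trans ?_
            have : 0 ≤ 2 * Real.pi * B := by positivity
            nlinarith
          have n2 : |φ x| ^ 2 = φ x ^ 2 := sq_abs _
          calc ‖Du j b x‖ ^ 2 ≤ (‖G b x‖ + (2 * Real.pi * B * n) * |φ x|) ^ 2 := by gcongr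
            _ ≤ 2 * ‖G b x‖ ^ 2 + 2 * (2 * Real.pi * B * n) ^ 2 * |φ x| ^ 2 := by
                nlinarith [sq_nonneg (‖G b x‖ - (2 * Real.pi * B * n) * |φ x|)]
            _ = _ := by rw [n2]
        calc ∫ x, ‖Du j b x‖ ^ 2 ≤ ∫ x, (2 * ‖G b x‖ ^ 2
            + 2 * (2 * Real.pi * B * n) ^ 2 * φ x ^ 2) :=
              integral_mono_of_nonneg (Eventually.of_forall fun x => by positivity)
                (((hG2 b).const_mul 2).add (hphi2.const_mul _)) (Eventually.of_forall hpt)
          _ = _ := by
              rw [integral_add ((hG2 b).const_mul 2) (hphi2.const_mul _), integral_const_mul,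
                integral_const_mul, hφ, mul_one]
      calc dir (Du j) ≤ ∑ b, (2 * (∫ x, ‖G b x‖ ^ 2) + 2 * (2 * Real.pi * B * n) ^ 2) :=
            Finset.sum_le_sum fun b _ => hb b
        _ = _ := by
            rw [Finset.sum_add_distrib, ← Finset.mul_sum, Finset.sum_const, Finset.card_univ,
              Fintype.card_fin, nsmul_eq_mul]
            unfold dir
            ring
    rcases Nat.eq_zero_or_pos n with hn | hn
    · subst hn
      simp
    have hn' : (1 : ℝ) ≤ n := by exact_mod_cast hn
    calc ∑ j, dir (Du j) ≤ ∑ _j : Fin n, (2 * dir G + 2 * d * (2 * Real.pi * B) ^ 2 * n ^ 2) :=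
          Finset.sum_le_sum fun j _ => hj j
      _ = n * (2 * dir G + 2 * d * (2 * Real.pi * B) ^ 2 * n ^ 2) := by
          rw [Finset.sum_const, Finset.card_univ, Fintype.card_fin, nsmul_eq_mul]
      _ ≤ (2 * dir G + 2 * d * (2 * Real.pi * B) ^ 2) * n ^ 3 := by
          have h1 : (n : ℝ) ≤ n ^ 3 := by nlinarith [sq_nonneg ((n : ℝ) - 1), mul_pos (show (0:ℝ) < n by linarith) (show (0:ℝ) < n by linarith)]
          have h2 : n * (2 * dir G) ≤ (2 * dir G) * n ^ 3 := by nlinarith
          nlinarith

end Pool.Agent.Helper3.LL
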