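import Pool.Agent.Helper3.LL_A6

/-!
# Task A7 (Sobolev embedding into `L^{2+4/d}`) for MP_2a55aa_mp
-/

open MeasureTheory Filter Topology Module
open scoped ENNReal NNReal

noncomputable section

namespace Pool.Agent.Helper3.LL

open Pool.Agent.Helper1.LL

variable {d : ℕ}

/-- Fatou: an `L²` limit of functions bounded in `L^q` is bounded in `L^q` -/
theorem fatou_Lq {u : Sp d → ℝ} {v : ℕ → Sp d → ℝ} (hu : MemLp u 2 volume)
    (hv : ∀ n, AEStronglyMeasurable (v n) volume)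
    (h : Tendsto (fun n => eLpNorm (fun x => v n x - u x) 2 volume) atTop (𝓝 0))
    {q C : ℝ≥0∞} (hC : ∀ n, eLpNorm (v n) q volume ≤ C) : eLpNorm u q volume ≤ C := by
  have h1 : TendstoInMeasure volume v atTop u :=
    tendstoInMeasure_of_tendsto_eLpNorm (p := 2) (by norm_num) hv hu.1 h
  obtain ⟨ns, -, hns⟩ := h1.exists_seq_tendsto_ae
  refine (Lp.eLpNorm_lim_le_liminf_eLpNorm (fun n => hv (ns n)) u hns).trans ?_
  refine liminf_le_of_le (by isBoundedDefault) (fun b hb => ?_)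
  obtain ⟨n, hn⟩ := hb.exists
  exact hn.trans (hC _)

/-- interpolation -/
theorem memLp_interp {u : Sp d → ℝ} {q r : ℝ} (hq : 2 ≤ q) (hqr : q ≤ r) (h2 : MemLp u 2 volume)
    (hr : MemLp u (ENNReal.ofReal r) volume) : MemLp u (ENNReal.ofReal q) volume := by
  refine ⟨h2.1, ?_⟩
  have hq0 : 0 < q := by linarith
  have hr0 : 0 < r := by linarith
  rw [eLpNorm_lt_top_iff_lintegral_rpow_enorm_lt_top (by simpa using hq0) ENNReal.ofReal_ne_top,
    ENNReal.toReal_ofReal hq0.le]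
  have i2 := (eLpNorm_lt_top_iff_lintegral_rpow_enorm_lt_top (μ := (volume : Measure (Sp d)))
    (f := u) (p := 2) (by norm_num) (by norm_num)).1 h2.2
  have ir := (eLpNorm_lt_top_iff_lintegral_rpow_enorm_lt_top (μ := (volume : Measure (Sp d)))
    (f := u) (p := ENNReal.ofReal r) (by simpa using hr0) ENNReal.ofReal_ne_top).1 hr.2
  rw [ENNReal.toReal_ofReal hr0.le] at ir
  have i2' : ∫⁻ x, ‖u x‖ₑ ^ (2 : ℝ) < ⊤ := by simpa using i2
  calc ∫⁻ x, ‖u x‖ₑ ^ q ≤ ∫⁻ x, (‖u x‖ₑ ^ (2 : ℝ) + ‖u x‖ₑ ^ r) := by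
        refine lintegral_mono fun x => ?_
        rcases le_total ‖u x‖ₑ 1 with h | h
        · exact (ENNReal.rpow_le_rpow_of_exponent_ge h hq).trans le_self_add
        · exact (ENNReal.rpow_le_rpow_of_exponent_le h hqr).trans le_add_self
    _ = (∫⁻ x, ‖u x‖ₑ ^ (2 : ℝ)) + ∫⁻ x, ‖u x‖ₑ ^ r := by
        rw [lintegral_add_left' (h2.1.enorm.pow_const _)]
    _ < ⊤ := ENNReal.add_lt_top.2 ⟨i2', ir⟩

theorem norm_clm_le (L : Sp d →L[ℝ] ℝ) : ‖L‖ ≤ ∑ a, ‖L (eb a)‖ := by
  refine ContinuousLinearMap.opNorm_le_bound _ (Finset.sum_nonneg fun a _ => norm_nonneg _)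
    fun x => ?_
  have h1 : x = ∑ a, x a • (eb a : Sp d) := by
    ext b
    simp [eb, Pi.single_apply]
  conv_lhs => rw [h1]
  rw [map_sum, Finset.sum_mul]
  refine (norm_sum_le _ _).trans (Finset.sum_le_sum fun a _ => ?_)
  rw [map_smul, norm_smul, mul_comm]
  gcongr
  exact PiLp.norm_apply_le x a

theorem eLpNorm_fderiv_le {v : Sp d → ℝ} (hv : ContDiff ℝ (⊤ : ℕ∞) v) :
    eLpNorm (fderiv ℝ v) 2 volume ≤ ∑ a, eLpNorm (fun x => fderiv ℝ v x (eb a)) 2 volume := by
  have hc : ∀ a, Continuous fun x => fderiv ℝ v x (eb a) := fun a =>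
    (hv.continuous_fderiv (by simp)).clm_apply continuous_const
  calc eLpNorm (fderiv ℝ v) 2 volume
      ≤ eLpNorm (fun x => ∑ a, ‖fderiv ℝ v x (eb a)‖) 2 volume := by
        refine eLpNorm_mono_real fun x => norm_clm_le _
    _ ≤ ∑ a, eLpNorm (fun x => ‖fderiv ℝ v x (eb a)‖) 2 volume := by
        have := eLpNorm_sum_le (μ := (volume : Measure (Sp d))) (p := 2) (s := Finset.univ)
          (f := fun a => fun x => ‖fderiv ℝ v x (eb a)‖)
          (fun a _ => (hc a).norm.aestronglyMeasurable) (by norm_num)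
        refine le_trans (le_of_eq ?_) this
        congr 1
        funext x
        simp
    _ = _ := by simp only [eLpNorm_norm]

/-- bounded approximating sequence -/
theorem approx_bdd {u : Sp d → ℝ} {G : Fin d → Sp d → ℝ} (h : IsH1 u G) :
    ∃ (v : ℕ → Sp d → ℝ) (C : ℝ≥0∞), C < ⊤ ∧ (∀ n, ContDiff ℝ (⊤ : ℕ∞) (v n)) ∧
      (∀ n, HasCompactSupport (v n)) ∧
      Tendsto (fun n => eLpNorm (fun x => v n x - u x) 2 volume) atTop (𝓝 0) ∧
      (∀ n, eLpNorm (v n) 2 volume ≤ C) ∧ ∀ n, eLpNorm (fderiv ℝ (v n)) 2 volume ≤ C := by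
  obtain ⟨v, hv1, hv2, hv3, hv4⟩ := Pool.Agent.Helper21.LL.IsH1.approx h
  have e1 : ∀ᶠ n in atTop, eLpNorm (fun x => v n x - u x) 2 volume ≤ 1 :=
    hv3.eventually (ge_mem_nhds (by norm_num))
  have e2 : ∀ᶠ n in atTop, ∀ a, eLpNorm (fun x => fderiv ℝ (v n) x (eb a) - G a x) 2 volume ≤ 1 := by
    rw [eventually_all]
    exact fun a => (hv4 a).eventually (ge_mem_nhds (by norm_num))
  obtain ⟨N, hN⟩ := eventually_atTop.1 (e1.and e2)
  refine ⟨fun n => v (n + N), (1 + eLpNorm u 2 volume) + ∑ a, (1 + eLpNorm (G a) 2 volume), ?_,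
    fun n => hv1 _, fun n => hv2 _, hv3.comp (tendsto_add_atTop_nat N), fun n => ?_, fun n => ?_⟩
  · refine ENNReal.add_lt_top.2 ⟨ENNReal.add_lt_top.2 ⟨by norm_num, h.memLp.2⟩, ?_⟩
    refine ENNReal.sum_lt_top.2 fun a _ => ENNReal.add_lt_top.2 ⟨by norm_num, (h.memLp_grad a).2⟩
  · have h1 := (hN (n + N) (by omega)).1
    have h2 : v (n + N) = (fun x => v (n + N) x - u x) + u := by funext x; simp
    have h3 : eLpNorm (v (n + N)) 2 volume ≤ 1 + eLpNorm u 2 volume := by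
      conv_lhs => rw [h2]
      refine (eLpNorm_add_le ?_ h.memLp.1 (by norm_num)).trans (by gcongr)
      exact (hv1 _).continuous.aestronglyMeasurable.sub h.memLp.1
    exact h3.trans le_self_add
  · have hc : ∀ a, Continuous fun x => fderiv ℝ (v (n + N)) x (eb a) := fun a =>
      ((hv1 _).continuous_fderiv (by simp)).clm_apply continuous_const
    refine (eLpNorm_fderiv_le (hv1 _)).trans (le_trans (Finset.sum_le_sum fun a _ => ?_)
      le_add_self)
    have h1 := (hN (n + N) (by omega)).2 a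
    have h2 : (fun x => fderiv ℝ (v (n + N)) x (eb a))
        = (fun x => fderiv ℝ (v (n + N)) x (eb a) - G a x) + G a := by funext x; simp
    conv_lhs => rw [h2]
    refine (eLpNorm_add_le ?_ (h.memLp_grad a).1 (by norm_num)).trans (by gcongr)
    exact (hc a).aestronglyMeasurable.sub (h.memLp_grad a).1

theorem eLpNorm_fderiv_sq {v : Sp d → ℝ} (hv : ContDiff ℝ (⊤ : ℕ∞) v) {C : ℝ≥0∞}
    (h1 : eLpNorm v 2 volume ≤ C) (h2 : eLpNorm (fderiv ℝ v) 2 volume ≤ C) :
    eLpNorm (fderiv ℝ (fun x => v x * v x)) 1 volume ≤ 2 * (C * C) := by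
  have hdiff : Differentiable ℝ v := hv.differentiable (by simp)
  have h3 : fderiv ℝ (fun x => v x * v x) = fun x => (2 * v x) • fderiv ℝ v x := by
    funext x
    have h0 : fderiv ℝ (fun x => v x * v x) x = v x • fderiv ℝ v x
        + v x • fderiv ℝ v x := ((hdiff x).hasFDerivAt.mul (hdiff x).hasFDerivAt).fderiv
    rw [h0, two_mul, add_smul]
  rw [h3]
  have h5 := eLpNorm_smul_le_mul_eLpNorm (p := 2) (q := 2) (r := 1)
    (μ := (volume : Measure (Sp d))) (f := fderiv ℝ v) (φ := fun x => 2 * v x)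
    (hv.continuous_fderiv (by simp)).aestronglyMeasurable
    (continuous_const.mul hv.continuous).aestronglyMeasurable
  refine h5.trans ?_
  have h6 : eLpNorm (fun x => 2 * v x) 2 volume = 2 * eLpNorm v 2 volume := by
    have h0 := eLpNorm_const_smul (2 : ℝ) v 2 (volume : Measure (Sp d))
    have e2 : ‖(2 : ℝ)‖ₑ = 2 := by rw [← ofReal_norm]; simp
    rw [e2] at h0
    exact h0
  rw [h6, mul_assoc]
  gcongr

/-- `d ≥ 3` -/
theorem sobolev_three (hd : 3 ≤ d) {u : Sp d → ℝ} {G : Fin d → Sp d → ℝ} (h : IsH1 u G) :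
    MemLp u (ENNReal.ofReal (2 * d / (d - 2))) volume := by
  obtain ⟨v, C, hC, hv1, hv2, hv3, hv4, hv5⟩ := approx_bdd h
  have hd' : (3 : ℝ) ≤ d := by exact_mod_cast hd
  have hp0 : (0 : ℝ) ≤ 2 * d / (d - 2) := by apply div_nonneg <;> linarith
  set p' : ℝ≥0 := Real.toNNReal (2 * d / (d - 2)) with hp'
  have e1 : (ENNReal.ofReal (2 * d / (d - 2)) : ℝ≥0∞) = (p' : ℝ≥0∞) := rfl
  rw [e1]
  refine ⟨h.memLp.1, ?_⟩
  set K := SNormLESNormFDerivOfEqConst ℝ (volume : Measure (Sp d)) ((2 : ℝ≥0) : ℝ) with hK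
  have hb : ∀ n, eLpNorm (v n) p' volume ≤ K * C := by
    intro n
    have := eLpNorm_le_eLpNorm_fderiv_of_eq (μ := (volume : Measure (Sp d))) (F := ℝ)
      ((hv1 n).of_le (by simp)) (hv2 n) (p := 2) (p' := p') (by norm_num)
      (by rw [finrank_euclideanSpace_fin]; omega) (by
        rw [finrank_euclideanSpace_fin, hp', Real.coe_toNNReal _ hp0]
        have : (d : ℝ) - 2 ≠ 0 := by linarith
        have : (d : ℝ) ≠ 0 := by linarith
        push_cast
        field_simp)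
    refine this.trans ?_
    gcongr
    exact hv5 n
  refine lt_of_le_of_lt (fatou_Lq h.memLp (fun n => (hv1 n).continuous.aestronglyMeasurable) hv3 hb) ?_
  exact ENNReal.mul_lt_top ENNReal.coe_lt_top hC

/-- `d = 2` -/
theorem sobolev_two {u : Sp 2 → ℝ} {G : Fin 2 → Sp 2 → ℝ} (h : IsH1 u G) :
    MemLp u 4 volume := by
  obtain ⟨v, C, hC, hv1, hv2, hv3, hv4, hv5⟩ := approx_bdd h
  refine ⟨h.memLp.1, ?_⟩
  set K := eLpNormLESNormFDerivOneConst (volume : Measure (Sp 2)) ((2 : ℝ≥0) : ℝ) with hK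
  have hb : ∀ n, eLpNorm (v n) 4 volume ≤ (K * (2 * (C * C))) ^ (1 / 2 : ℝ) := by
    intro n
    have hc1 : ContDiff ℝ 1 (v n) := (hv1 n).of_le (by simp)
    have hw : ContDiff ℝ 1 (fun x => v n x * v n x) := hc1.mul hc1
    have h2w : HasCompactSupport (fun x => v n x * v n x) := (hv2 n).mul_left
    have h1 := eLpNorm_le_eLpNorm_fderiv_one (μ := (volume : Measure (Sp 2))) hw h2w (p := 2) (by
      rw [finrank_euclideanSpace_fin]
      have : NNReal.HolderConjugate 2 2 := NNReal.HolderConjugate.two_two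
      exact_mod_cast this)
    have h4 := eLpNorm_fderiv_sq (hv1 n) (hv4 n) (hv5 n)
    have h7 : eLpNorm (fun x => v n x * v n x) 2 volume = eLpNorm (v n) 4 volume ^ (2 : ℝ) := by
      have := eLpNorm_norm_rpow (p := 2) (μ := (volume : Measure (Sp 2))) (v n)
        (show (0 : ℝ) < 2 by norm_num)
      have e4 : (2 : ℝ≥0∞) * ENNReal.ofReal 2 = 4 := by
        rw [ENNReal.ofReal_ofNat]; norm_num
      rw [e4] at this
      rw [← this]
      refine eLpNorm_congr_norm_ae (Eventually.of_forall fun x => ?_)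
      simp [sq]
    have h8 : eLpNorm (v n) 4 volume ^ (2 : ℝ) ≤ K * (2 * (C * C)) := by
      rw [← h7]
      rw [ENNReal.coe_ofNat] at h1
      refine h1.trans ?_
      gcongr
    calc eLpNorm (v n) 4 volume = (eLpNorm (v n) 4 volume ^ (2 : ℝ)) ^ (1 / 2 : ℝ) := by
          rw [← ENNReal.rpow_mul]; norm_num
      _ ≤ _ := ENNReal.rpow_le_rpow h8 (by norm_num)
  refine lt_of_le_of_lt (fatou_Lq h.memLp (fun n => (hv1 n).continuous.aestronglyMeasurable) hv3 hb) ?_
  refine ENNReal.rpow_lt_top_of_nonneg (by norm_num) ?_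
  exact (ENNReal.mul_lt_top ENNReal.coe_lt_top
    (ENNReal.mul_lt_top (by norm_num) (ENNReal.mul_lt_top hC hC))).ne

/-! ### Dimension one -/

/-- the inclusion of the line -/
def iot (t : ℝ) : Sp 1 := t • eb 0

theorem iot_coord (x : Sp 1) : iot (x 0) = x := by
  ext i
  have : i = 0 := Subsingleton.elim _ _
  subst this
  simp [iot, eb]

theorem iot_zero (t : ℝ) : (iot t) 0 = t := by simp [iot, eb]

theorem mp_coord : MeasurePreserving (fun x : Sp 1 => x 0) volume volume := by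
  have h1 := PiLp.volume_preserving_ofLp (Fin 1)
  have h2 := volume_preserving_funUnique (Fin 1) ℝ
  exact h2.comp h1

/-- `d = 1` -/
theorem sobolev_one {u : Sp 1 → ℝ} {G : Fin 1 → Sp 1 → ℝ} (h : IsH1 u G) :
    MemLp u 6 volume := by
  obtain ⟨v, C, hC, hv1, hv2, hv3, hv4, hv5⟩ := approx_bdd h
  refine ⟨h.memLp.1, ?_⟩
  have hb : ∀ n, eLpNorm (v n) 6 volume ≤ ((2 * (C * C)) ^ (2 : ℝ) * C ^ (2 : ℝ)) ^ (1 / 6 : ℝ) := by
    intro n
    set w : Sp 1 → ℝ := fun x => v n x * v n x with hw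
    have hwc : ContDiff ℝ (⊤ : ℕ∞) w := (hv1 n).mul (hv1 n)
    have hws : HasCompactSupport w := (hv2 n).mul_left
    have hiotC : ContDiff ℝ (⊤ : ℕ∞) iot := contDiff_id.smul contDiff_const
    have hiot : ∀ t, HasDerivAt iot (eb 0) t := by
      intro t
      have := (hasDerivAt_id t).smul_const (eb 0 : Sp 1)
      rw [one_smul] at this
      exact this
    have hg : ContDiff ℝ 1 (fun t => w (iot t)) := (hwc.comp hiotC).of_le (by simp)
    have hgs : HasCompactSupport (fun t => w (iot t)) := by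
      refine hws.comp_isClosedEmbedding (g := iot) ?_
      have hinj : Function.LeftInverse (fun x : Sp 1 => x 0) iot := iot_zero
      refine Topology.IsClosedEmbedding.of_continuous_injective_isClosedMap hiotC.continuous
        hinj.injective ?_
      intro S hS
      have : iot '' S = (fun x : Sp 1 => x 0) ⁻¹' S := by
        ext x
        constructor
        · rintro ⟨t, ht, rfl⟩
          simpa [iot_zero] using ht
        · intro hx
          exact ⟨x 0, hx, iot_coord x⟩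
      rw [this]
      exact hS.preimage (by fun_prop)
    have hder : ∀ t, deriv (fun t => w (iot t)) t = fderiv ℝ w (iot t) (eb 0) := by
      intro t
      have h1 : HasFDerivAt w (fderiv ℝ w (iot t)) (iot t) :=
        ((hwc.differentiable (by simp)) _).hasFDerivAt
      exact (h1.comp_hasDerivAt t (hiot t)).deriv
    have hsup : ∀ x, ‖v n x‖ₑ ^ (2 : ℝ) ≤ 2 * (C * C) := by
      intro x
      have h1 := HasCompactSupport.integral_Iic_deriv_eq hg hgs (x 0)
      rw [iot_coord] at h1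
      have h2 : ‖w x‖ₑ ≤ ∫⁻ t, ‖fderiv ℝ w (iot t) (eb 0)‖ₑ := by
        rw [← h1]
        refine (enorm_integral_le_lintegral_enorm _).trans ?_
        refine (setLIntegral_le_lintegral _ _).trans (le_of_eq ?_)
        simp only [hder]
      have h3 : ∫⁻ t, ‖fderiv ℝ w (iot t) (eb 0)‖ₑ = ∫⁻ y : Sp 1, ‖fderiv ℝ w y (eb 0)‖ₑ := by
        have hm : Measurable fun t => ‖fderiv ℝ w (iot t) (eb 0)‖ₑ := by
          refine (Continuous.measurable ?_).enorm
          exact ((hwc.continuous_fderiv (by simp)).comp hiotC.continuous).clm_apply continuous_const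
        have := mp_coord.lintegral_comp hm
        rw [← this]
        refine lintegral_congr fun y => ?_
        rw [iot_coord]
      have h4 : ∫⁻ y : Sp 1, ‖fderiv ℝ w y (eb 0)‖ₑ ≤ eLpNorm (fderiv ℝ w) 1 volume := by
        rw [eLpNorm_one_eq_lintegral_enorm]
        refine lintegral_mono fun y => ?_
        have h5 := (fderiv ℝ w y).le_opNorm (eb 0)
        have h6 : ‖(eb 0 : Sp 1)‖ = 1 := by simp [eb]
        rw [h6, mul_one] at h5
        rw [← ofReal_norm, ← ofReal_norm]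
        exact ENNReal.ofReal_le_ofReal h5
      have h5 : ‖w x‖ₑ = ‖v n x‖ₑ ^ (2 : ℝ) := by
        rw [hw]
        simp only [enorm_mul]
        rw [ENNReal.rpow_two, sq]
      rw [← h5]
      calc ‖w x‖ₑ ≤ _ := h2
        _ = _ := h3
        _ ≤ _ := h4
        _ ≤ _ := eLpNorm_fderiv_sq (hv1 n) (hv4 n) (hv5 n)
    have h2 : ∫⁻ x, ‖v n x‖ₑ ^ (2 : ℝ) ≤ C ^ (2 : ℝ) := by
      have h3 := eLpNorm_eq_lintegral_rpow_enorm_toReal (μ := (volume : Measure (Sp 1)))
        (f := v n) (p := 2) (by norm_num) (by norm_num)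
      have h4 := hv4 n
      rw [h3] at h4
      simp only [ENNReal.toReal_ofNat] at h4
      calc ∫⁻ x, ‖v n x‖ₑ ^ (2 : ℝ) = ((∫⁻ x, ‖v n x‖ₑ ^ (2 : ℝ)) ^ (1 / 2 : ℝ)) ^ (2 : ℝ) := by
            rw [← ENNReal.rpow_mul]; norm_num
        _ ≤ _ := ENNReal.rpow_le_rpow h4 (by norm_num)
    rw [eLpNorm_eq_lintegral_rpow_enorm_toReal (by norm_num) (by norm_num)]
    simp only [ENNReal.toReal_ofNat]
    refine ENNReal.rpow_le_rpow ?_ (by norm_num)
    calc ∫⁻ x, ‖v n x‖ₑ ^ (6 : ℝ)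
        ≤ ∫⁻ x, (2 * (C * C)) ^ (2 : ℝ) * ‖v n x‖ₑ ^ (2 : ℝ) := by
          refine lintegral_mono fun x => ?_
          have : ‖v n x‖ₑ ^ (6 : ℝ) = (‖v n x‖ₑ ^ (2 : ℝ)) ^ (2 : ℝ) * ‖v n x‖ₑ ^ (2 : ℝ) := by
            rw [← ENNReal.rpow_mul, ← ENNReal.rpow_add_of_nonneg _ _ (by norm_num) (by norm_num)]
            norm_num
          simp only [this]
          gcongr
          exact hsup x
      _ = (2 * (C * C)) ^ (2 : ℝ) * ∫⁻ x, ‖v n x‖ₑ ^ (2 : ℝ) := by
          refine lintegral_const_mul' _ _ ?_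
          exact ENNReal.rpow_ne_top_of_nonneg (by norm_num)
            (ENNReal.mul_lt_top (by norm_num) (ENNReal.mul_lt_top hC hC)).ne
      _ ≤ _ := by gcongr
  refine lt_of_le_of_lt (fatou_Lq h.memLp (fun n => (hv1 n).continuous.aestronglyMeasurable) hv3 hb) ?_
  refine ENNReal.rpow_lt_top_of_nonneg (by norm_num) ?_
  refine (ENNReal.mul_lt_top ?_ ?_).ne
  · exact ENNReal.rpow_lt_top_of_nonneg (by norm_num)
      (ENNReal.mul_lt_top (by norm_num) (ENNReal.mul_lt_top hC hC)).ne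
  · exact ENNReal.rpow_lt_top_of_nonneg (by norm_num) hC.ne

/-- A7. Sobolev: `u ∈ H¹(ℝ^d)` implies `u ∈ L^{2+4/d}`. -/
theorem IsH1.sobolev {d : ℕ} (hd : 1 ≤ d) {u : Sp d → ℝ} {G : Fin d → Sp d → ℝ}
    (h : IsH1 u G) : MemLp u (ENNReal.ofReal (2 + 4 / d)) volume := by
  rcases Nat.lt_or_ge d 3 with h3 | h3
  · interval_cases d
    · have e : ENNReal.ofReal (2 + 4 / ((1 : ℕ) : ℝ)) = 6 := by
        rw [← ENNReal.ofReal_ofNat]; norm_num
      rw [e]
      exact sobolev_one h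
    · have e : ENNReal.ofReal (2 + 4 / ((2 : ℕ) : ℝ)) = 4 := by
        rw [← ENNReal.ofReal_ofNat]; norm_num
      rw [e]
      exact sobolev_two h
  · have hd3 : (3 : ℝ) ≤ d := by exact_mod_cast h3
    refine memLp_interp ?_ ?_ h.memLp (sobolev_three h3 h)
    · have : (0 : ℝ) ≤ 4 / d := by positivity
      linarith
    · have h1 : (0 : ℝ) < d - 2 := by linarith
      have h2 : (0 : ℝ) < d := by linarith
      rw [le_div_iff₀ h1]
      have : (2 + 4 / (d : ℝ)) * (d - 2) = 2 * d - 8 / d := by field_simp; ring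
      rw [this]
      have : (0 : ℝ) ≤ 8 / d := by positivity
      linarith

end Pool.Agent.Helper3.LL
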