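import Pool.Agent.Helper3.LL_A6

/-!
# Product of a complex `H¹` function with a bounded `C¹` function
-/

open MeasureTheory Filter Topology
open scoped ENNReal

noncomputable section

namespace Pool.Agent.Helper3.LL

open Pool.Agent.Helper1.LL

variable {d : ℕ}

theorem enorm_integral_le {m : Sp d → ℂ} {b : Sp d → ℂ} (hm : MemLp m 2 volume)
    (hb : AEStronglyMeasurable b volume) :
    ‖∫ x, m x * b x‖ₑ ≤ eLpNorm m 2 volume * eLpNorm b 2 volume := by
  refine (enorm_integral_le_lintegral_enorm _).trans ?_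
  have h2 := eLpNorm_smul_le_mul_eLpNorm (p := 2) (q := 2) (r := 1)
    (μ := (volume : Measure (Sp d))) hb hm.1
  rw [eLpNorm_one_eq_lintegral_enorm] at h2
  exact h2

/-- convergence of a pairing with a fixed `L²` function -/
theorem tendsto_pair {m f : Sp d → ℂ} {fn : ℕ → Sp d → ℂ} (hm : MemLp m 2 volume)
    (hf : MemLp f 2 volume) (hfn : ∀ n, MemLp (fn n) 2 volume)
    (h1 : Tendsto (fun n => eLpNorm (fun x => fn n x - f x) 2 volume) atTop (𝓝 0)) :
    Tendsto (fun n => ∫ x, m x * fn n x) atTop (𝓝 (∫ x, m x * f x)) := by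
  rw [tendsto_iff_norm_sub_tendsto_zero]
  have hb : ∀ n, ENNReal.ofReal ‖(∫ x, m x * fn n x) - ∫ x, m x * f x‖ ≤
      eLpNorm m 2 volume * eLpNorm (fun x => fn n x - f x) 2 volume := by
    intro n
    have e1 : (∫ x, m x * fn n x) - ∫ x, m x * f x = ∫ x, m x * (fn n x - f x) := by
      have i1 : Integrable (fun x => m x * fn n x) volume := hm.integrable_mul (hfn n)
      have i2 : Integrable (fun x => m x * f x) volume := hm.integrable_mul hf
      rw [← integral_sub i1 i2]
      refine integral_congr_ae (Eventually.of_forall fun x => ?_)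
      simp only
      ring
    rw [e1, ofReal_norm]
    exact enorm_integral_le hm ((hfn n).1.sub hf.1)
  have hlim := ENNReal.Tendsto.const_mul (a := eLpNorm m 2 volume) h1
    (Or.inr hm.eLpNorm_lt_top.ne)
  rw [mul_zero] at hlim
  have h3 := tendsto_of_tendsto_of_tendsto_of_le_of_le tendsto_const_nhds hlim
    (fun n => zero_le) hb
  have h4 := (ENNReal.tendsto_toReal ENNReal.zero_ne_top).comp h3
  rw [ENNReal.toReal_zero] at h4
  refine h4.congr fun n => ?_
  simp only [Function.comp_apply]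
  rw [ENNReal.toReal_ofReal (norm_nonneg _)]

theorem memLp_bdd_mul {ψ u : Sp d → ℂ} (hψ : Continuous ψ) {K : ℝ} (hK : ∀ x, ‖ψ x‖ ≤ K)
    (hu : MemLp u 2 volume) : MemLp (fun x => ψ x * u x) 2 volume := by
  refine (hu.const_mul (K : ℂ)).mono (hψ.aestronglyMeasurable.mul hu.1)
    (Eventually.of_forall fun x => ?_)
  have h0 : 0 ≤ K := (norm_nonneg _).trans (hK x)
  rw [norm_mul, norm_mul, Complex.norm_real, Real.norm_eq_abs, abs_of_nonneg h0]
  gcongr
  exact hK x

theorem mul_C1 {u : Sp d → ℂ} {G : Fin d → Sp d → ℂ} (h : IsH1 u G)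
    (ψ : Sp d → ℂ) (hψ : ContDiff ℝ 1 ψ) (K : ℝ) (hK : ∀ x, ‖ψ x‖ ≤ K)
    (hK' : ∀ x, ‖fderiv ℝ ψ x‖ ≤ K) :
    IsH1 (fun x => ψ x * u x) (fun a x => ψ x * G a x + fderiv ℝ ψ x (eb a) * u x) := by
  have hψc := hψ.continuous
  have hdψ : ∀ a, Continuous fun x => fderiv ℝ ψ x (eb a) := fun a =>
    (hψ.continuous_fderiv one_ne_zero).clm_apply continuous_const
  have hdK : ∀ a x, ‖fderiv ℝ ψ x (eb a)‖ ≤ K := fun a x => by
    have h1 := (fderiv ℝ ψ x).le_opNorm (eb a)
    have h2 : ‖(eb a : Sp d)‖ = 1 := by simp [eb]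
    rw [h2, mul_one] at h1
    exact h1.trans (hK' x)
  refine ⟨memLp_bdd_mul hψc hK h.memLp, fun a => ?_, fun a => ?_⟩
  · exact (memLp_bdd_mul hψc hK (h.memLp_grad a)).add (memLp_bdd_mul (hdψ a) (hdK a) h.memLp)
  intro χ hχ hχs
  obtain ⟨v, hv1, hv2, hv3, hv4⟩ := Pool.Agent.Helper21.LL.IsH1.approx h
  have hχc : Continuous χ := hχ.continuous
  have hχd : Continuous fun x => fderiv ℝ χ x (eb a) :=
    (hχ.continuous_fderiv (by simp)).clm_apply continuous_const
  have hvm : ∀ n, MemLp (v n) 2 volume := fun n =>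
    (hv1 n).continuous.memLp_of_hasCompactSupport (hv2 n)
  have hvd : ∀ n, Continuous fun x => fderiv ℝ (v n) x (eb a) := fun n =>
    ((hv1 n).continuous_fderiv (by simp)).clm_apply continuous_const
  have hvdm : ∀ n, MemLp (fun x => fderiv ℝ (v n) x (eb a)) 2 volume := fun n =>
    (hvd n).memLp_of_hasCompactSupport ((hv2 n).fderiv_apply ℝ (eb a))
  -- the three multipliers
  have m1 : MemLp (fun x => ((fderiv ℝ χ x (eb a) : ℝ) : ℂ) * ψ x) 2 volume := by
    refine Continuous.memLp_of_hasCompactSupport ?_ ?_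
    · exact (Complex.continuous_ofReal.comp hχd).mul hψc
    · exact HasCompactSupport.mul_right
        ((hχs.fderiv_apply ℝ (eb a)).comp_left (g := fun t : ℝ => (t : ℂ)) (by simp))
  have m2 : MemLp (fun x => ((χ x : ℝ) : ℂ) * ψ x) 2 volume := by
    refine Continuous.memLp_of_hasCompactSupport ?_ ?_
    · exact (Complex.continuous_ofReal.comp hχc).mul hψc
    · exact HasCompactSupport.mul_right (hχs.comp_left (g := fun t : ℝ => (t : ℂ)) (by simp))
  have m3 : MemLp (fun x => ((χ x : ℝ) : ℂ) * fderiv ℝ ψ x (eb a)) 2 volume := by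
    refine Continuous.memLp_of_hasCompactSupport ?_ ?_
    · exact (Complex.continuous_ofReal.comp hχc).mul (hdψ a)
    · exact HasCompactSupport.mul_right (hχs.comp_left (g := fun t : ℝ => (t : ℂ)) (by simp))
  have hn : ∀ n, ∫ x, (((fderiv ℝ χ x (eb a) : ℝ) : ℂ) * ψ x) * v n x
      = - ((∫ x, (((χ x : ℝ) : ℂ) * ψ x) * fderiv ℝ (v n) x (eb a))
        + ∫ x, (((χ x : ℝ) : ℂ) * fderiv ℝ ψ x (eb a)) * v n x) := by
    intro n
    have dψ : ∀ x, HasFDerivAt ψ (fderiv ℝ ψ x) x := fun x =>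
      (hψ.differentiable one_ne_zero x).hasFDerivAt
    have dv : ∀ x, HasFDerivAt (v n) (fderiv ℝ (v n) x) x := fun x =>
      ((hv1 n).differentiable (by simp) x).hasFDerivAt
    have dw : ∀ x, fderiv ℝ (fun x => ψ x * v n x) x (eb a)
        = ψ x * fderiv ℝ (v n) x (eb a) + fderiv ℝ ψ x (eb a) * v n x := by
      intro x
      have h0 : fderiv ℝ (fun x => ψ x * v n x) x
          = ψ x • fderiv ℝ (v n) x + v n x • fderiv ℝ ψ x := ((dψ x).mul (dv x)).fderiv
      rw [h0]
      simp only [add_apply, smul_apply, smul_eq_mul]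
      ring
    have hwc : Continuous fun x => ψ x * v n x := hψc.mul (hv1 n).continuous
    have hwd : Continuous fun x => ψ x * fderiv ℝ (v n) x (eb a) + fderiv ℝ ψ x (eb a) * v n x :=
      (hψc.mul (hvd n)).add ((hdψ a).mul (hv1 n).continuous)
    have hsupp : HasCompactSupport fun x => ((fderiv ℝ χ x (eb a) : ℝ)) := hχs.fderiv_apply ℝ (eb a)
    have key := integral_smul_fderiv_eq_neg_fderiv_smul_of_integrable
      (μ := (volume : Measure (Sp d))) (f := χ) (g := fun x => ψ x * v n x) (v := eb a)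
      ((hχd.smul hwc).integrable_of_hasCompactSupport hsupp.smul_right)
      (by
        simp only [dw]
        exact (hχc.smul hwd).integrable_of_hasCompactSupport hχs.smul_right)
      ((hχc.smul hwc).integrable_of_hasCompactSupport hχs.smul_right)
      (fun x _ => hχ.differentiable (by simp) x)
      (fun x _ => ((dψ x).mul (dv x)).differentiableAt)
    have i2 : Integrable (fun x => (((χ x : ℝ) : ℂ) * ψ x) * fderiv ℝ (v n) x (eb a)) volume :=
      m2.integrable_mul (hvdm n)
    have i3 : Integrable (fun x => (((χ x : ℝ) : ℂ) * fderiv ℝ ψ x (eb a)) * v n x) volume :=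
      m3.integrable_mul (hvm n)
    rw [← integral_add i2 i3, eq_neg_iff_add_eq_zero]
    rw [eq_neg_iff_add_eq_zero] at key
    rw [← key, add_comm]
    congr 1
    · refine integral_congr_ae (Eventually.of_forall fun x => ?_)
      simp only [dw, Complex.real_smul]
      ring
    · refine integral_congr_ae (Eventually.of_forall fun x => ?_)
      simp only [Complex.real_smul]
      ring
  have t1 := tendsto_pair m1 h.memLp hvm hv3
  have t2 := tendsto_pair m2 (h.memLp_grad a) hvdm (hv4 a)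
  have t3 := tendsto_pair m3 h.memLp hvm hv3
  simp only [hn] at t1
  have t4 := tendsto_nhds_unique t1 (t2.add t3).neg
  have i2 : Integrable (fun x => (((χ x : ℝ) : ℂ) * ψ x) * G a x) volume :=
    m2.integrable_mul (h.memLp_grad a)
  have i3 : Integrable (fun x => (((χ x : ℝ) : ℂ) * fderiv ℝ ψ x (eb a)) * u x) volume :=
    m3.integrable_mul h.memLp
  calc ∫ x, (fderiv ℝ χ x (eb a)) • (ψ x * u x)
      = ∫ x, (((fderiv ℝ χ x (eb a) : ℝ) : ℂ) * ψ x) * u x := by
        refine integral_congr_ae (Eventually.of_forall fun x => ?_)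
        simp only [Complex.real_smul]
        ring
    _ = - ((∫ x, (((χ x : ℝ) : ℂ) * ψ x) * G a x)
        + ∫ x, (((χ x : ℝ) : ℂ) * fderiv ℝ ψ x (eb a)) * u x) := t4
    _ = - ∫ x, χ x • (ψ x * G a x + fderiv ℝ ψ x (eb a) * u x) := by
        rw [← integral_add i2 i3]
        congr 1
        refine integral_congr_ae (Eventually.of_forall fun x => ?_)
        simp only [Complex.real_smul]
        ring

theorem ofReal' {u : Sp d → ℝ} {G : Fin d → Sp d → ℝ} (h : IsH1 u G) :
    IsH1 (fun x => (u x : ℂ)) (fun a x => (G a x : ℂ)) := by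
  refine ⟨h.memLp.ofReal, fun a => (h.memLp_grad a).ofReal, fun a χ hχ hχs => ?_⟩
  have h1 := h.weak a χ hχ hχs
  have e1 : ∀ x, (fderiv ℝ χ x (eb a)) • ((u x : ℝ) : ℂ)
      = (((fderiv ℝ χ x (eb a)) • u x : ℝ) : ℂ) := fun x => by
    rw [Complex.real_smul, smul_eq_mul]; push_cast; ring
  have e2 : ∀ x, χ x • ((G a x : ℝ) : ℂ) = ((χ x • G a x : ℝ) : ℂ) := fun x => by
    rw [Complex.real_smul, smul_eq_mul]; push_cast; ring
  simp only [e1, e2]
  rw [integral_complex_ofReal, integral_complex_ofReal, h1]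
  push_cast
  rfl

end Pool.Agent.Helper3.LL
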